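import Pool.Agent.H6.Veech.Closed

/-! Closed subsets of the torus invariant under three affine maps. -/

open Set Filter Topology

namespace Pool.Agent.H6.Veech

/-- the linear map `(x,y) ↦ (x + a y, y)` -/
def uMap (a : ℕ) : T ≃+ T where
  toFun z := (z.1 + a • z.2, z.2)
  invFun z := (z.1 - a • z.2, z.2)
  left_inv z := by simp
  right_inv z := by simp
  map_add' z w := by
    ext
    · simp only [Prod.fst_add, Prod.snd_add, nsmul_add]; abel
    · rfl

/-- the linear map `(x,y) ↦ (x, y + b x)` -/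
def lMap (b : ℕ) : T ≃+ T where
  toFun z := (z.1, z.2 + b • z.1)
  invFun z := (z.1, z.2 - b • z.1)
  left_inv z := by simp
  right_inv z := by simp
  map_add' z w := by
    ext
    · rfl
    · simp only [Prod.fst_add, Prod.snd_add, nsmul_add]; abel

/-- the stabiliser of a set of points -/
def Stab (C : Set T) : Set T := {k | ∀ y, y + k ∈ C ↔ y ∈ C}

lemma isClosed_stab {C : Set T} (hC : IsClosed C) : IsClosed (Stab C) := by
  have h : Stab C = ⋂ y ∈ C, ({k : T | y + k ∈ C} ∩ {k : T | y - k ∈ C}) := by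
    ext k
    simp only [Stab, mem_ofPred_eq, mem_iInter, mem_inter_iff]
    constructor
    · intro h y hy
      refine ⟨(h y).2 hy, ?_⟩
      have := h (y - k)
      rw [sub_add_cancel] at this
      exact this.1 hy
    · intro h y
      refine ⟨fun hy => ?_, fun hy => (h y hy).1⟩
      have := (h _ hy).2
      rwa [add_sub_cancel_right] at this
  rw [h]
  refine isClosed_iInter fun y => isClosed_iInter fun _ => IsClosed.inter ?_ ?_
  · exact hC.preimage (continuous_const.add continuous_id)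
  · exact hC.preimage (continuous_const.sub continuous_id)

lemma stab_map {C : Set T} (u : T ≃+ T) {t : T} (h : ∀ z, u z + t ∈ C ↔ z ∈ C) (k : T) :
    u k ∈ Stab C ↔ k ∈ Stab C := by
  constructor
  · intro hk z
    rw [← h (z + k), map_add, add_assoc, add_comm (u k) t, ← add_assoc, hk, h]
  · intro hk z
    have e : z = u (u.symm (z - t)) + t := by rw [AddEquiv.apply_symm_apply, sub_add_cancel]
    have e2 : z + u k = u (u.symm (z - t) + k) + t := by
      rw [map_add, AddEquiv.apply_symm_apply]; abel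
    rw [e2, h, hk, ← h, ← e]

lemma pow_lin {C : Set T} {a : ℕ} {p q : UnitAddCircle}
    (h : ∀ x y, ((x + a • y + p, y + q) : T) ∈ C ↔ ((x, y) : T) ∈ C) (n : ℕ) :
    ∀ x y, ((x + (n * a) • y + n • p + (a * n.choose 2) • q, y + n • q) : T) ∈ C ↔
      ((x, y) : T) ∈ C := by
  induction n with
  | zero => intro x y; simp
  | succ n ih =>
    intro x y
    rw [← ih x y, ← h (x + (n * a) • y + n • p + (a * n.choose 2) • q) (y + n • q)]
    have e1 : x + (n * a) • y + n • p + (a * n.choose 2) • q + a • (y + n • q) + p =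
        x + ((n + 1) * a) • y + (n + 1) • p + (a * (n + 1).choose 2) • q := by
      have : (n + 1).choose 2 = n + n.choose 2 := by
        rw [Nat.choose_succ_succ' n 1, Nat.choose_one_right]
      rw [this, add_mul, one_mul, mul_add, add_nsmul, add_nsmul, add_nsmul, nsmul_add, one_nsmul,
        mul_nsmul' q a n]
      abel
    have e2 : y + n • q + q = y + (n + 1) • q := by rw [add_nsmul, one_nsmul, add_assoc]
    rw [e1, e2]

lemma lin_of_affine {C : Set T} {a m : ℕ} {s : T} (hs : m • s = 0)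
    (h : ∀ z, uMap a z + s ∈ C ↔ z ∈ C) (x y : UnitAddCircle) :
    ((x + (2 * m * a) • y, y) : T) ∈ C ↔ ((x, y) : T) ∈ C := by
  have hp : m • s.1 = 0 := congrArg Prod.fst hs
  have hq : m • s.2 = 0 := congrArg Prod.snd hs
  have h1 := pow_lin (C := C) (a := a) (p := s.1) (q := s.2) (fun x y => h (x, y)) (2 * m) x y
  have h2 : (2 * m).choose 2 = m * (2 * m - 1) := by
    rw [Nat.choose_two_right, mul_assoc, Nat.mul_div_cancel_left _ two_pos]
  have e1 : (2 * m) • s.1 = 0 := by rw [mul_nsmul', hp, nsmul_zero]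
  have e2 : (2 * m) • s.2 = 0 := by rw [mul_nsmul', hq, nsmul_zero]
  have e3 : (a * (2 * m).choose 2) • s.2 = 0 := by
    rw [h2, mul_comm m, ← mul_assoc, mul_nsmul', hq, nsmul_zero]
  rw [e1, e2, e3, add_zero, add_zero, add_zero] at h1
  exact h1

lemma exists_half (t : T) : ∃ c : T, c + c = t := by
  obtain ⟨x, y⟩ := t
  obtain ⟨r, rfl⟩ := QuotientAddGroup.mk_surjective x
  obtain ⟨s, rfl⟩ := QuotientAddGroup.mk_surjective y
  refine ⟨(((r / 2 : ℝ) : UnitAddCircle), ((s / 2 : ℝ) : UnitAddCircle)), ?_⟩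
  ext
  · change ((r / 2 : ℝ) : UnitAddCircle) + ((r / 2 : ℝ) : UnitAddCircle) = ((r : ℝ) : UnitAddCircle)
    rw [← AddCircle.coe_add, add_halves]
  · change ((s / 2 : ℝ) : UnitAddCircle) + ((s / 2 : ℝ) : UnitAddCircle) = ((s : ℝ) : UnitAddCircle)
    rw [← AddCircle.coe_add, add_halves]

/-- twice the translation part (after centring) stabilises the set -/
lemma two_mem_stab {C : Set T} (u : T ≃+ T) {t0 t c : T} (hc : c + c = t0)
    (h0 : ∀ y, -y + t0 ∈ C ↔ y ∈ C) (h : ∀ z, u z + t ∈ C ↔ z ∈ C) :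
    (u c + t - c) + (u c + t - c) ∈ Stab C := by
  set s : T := u c + t - c with hs
  have h' : ∀ y, u y + s + c ∈ C ↔ y + c ∈ C := by
    intro y
    rw [← h (y + c), hs, map_add]
    have : u y + (u c + t - c) + c = u y + u c + t := by abel
    rw [this]
  have h0' : ∀ y, -y + c ∈ C ↔ y + c ∈ C := by
    intro y
    rw [← h0 (y + c), ← hc]
    have : -(y + c) + (c + c) = -y + c := by abel
    rw [this]
  intro z
  set y : T := u.symm (z - c + s) with hy
  have e : u y = z - c + s := by rw [hy, AddEquiv.apply_symm_apply]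
  have e1 : z + (s + s) = u y + s + c := by rw [e]; abel
  have e2 : z = -(u (-y) + s) + c := by rw [map_neg, e]; abel
  rw [e1, h', ← h0', ← h', ← h0']
  rw [← e2]

/-- **Closed sets invariant under three affine maps.** -/
theorem closed_affine {C : Set T} (hC : IsClosed C) {a b : ℕ} (ha : 1 ≤ a) (hb : 1 ≤ b)
    {t0 t1 t2 : T} (h0 : ∀ y, -y + t0 ∈ C ↔ y ∈ C)
    (h1 : ∀ z, uMap a z + t1 ∈ C ↔ z ∈ C) (h2 : ∀ z, lMap b z + t2 ∈ C ↔ z ∈ C) :
    C = univ ∨ ∃ c : T, ∃ m : ℕ, 1 ≤ m ∧ ∀ y ∈ C, m • (y - c) = 0 := by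
  rcases closed_linear (isClosed_stab hC) ha hb (fun x y => stab_map (uMap a) h1 (x, y))
    (fun x y => stab_map (lMap b) h2 (x, y)) with hK | ⟨m, hm, hK⟩
  · rcases C.eq_empty_or_nonempty with rfl | ⟨c, hc⟩
    · right; exact ⟨0, 1, le_rfl, fun y hy => absurd hy (notMem_empty y)⟩
    · left
      rw [eq_univ_iff_forall]
      intro y
      have : y - c ∈ Stab C := by rw [hK]; trivial
      have h3 := (this c).2 hc
      rwa [add_sub_cancel] at h3
  obtain ⟨c, hc⟩ := exists_half t0
  set C' : Set T := {y | y + c ∈ C} with hC'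
  have hcl : IsClosed C' := hC.preimage (continuous_id.add continuous_const)
  have hs1 := hK _ (two_mem_stab (uMap a) hc h0 h1)
  have hs2 := hK _ (two_mem_stab (lMap b) hc h0 h2)
  have hs1' : (2 * m) • (uMap a c + t1 - c) = 0 := by
    rw [mul_comm, mul_nsmul', two_nsmul, hs1]
  have hs2' : (2 * m) • (lMap b c + t2 - c) = 0 := by
    rw [mul_comm, mul_nsmul', two_nsmul, hs2]
  have g1 : ∀ z, uMap a z + (uMap a c + t1 - c) ∈ C' ↔ z ∈ C' := by
    intro z
    change uMap a z + (uMap a c + t1 - c) + c ∈ C ↔ z + c ∈ C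
    rw [← h1 (z + c), map_add]
    have : uMap a z + (uMap a c + t1 - c) + c = uMap a z + uMap a c + t1 := by abel
    rw [this]
  have g2 : ∀ z, lMap b z + (lMap b c + t2 - c) ∈ C' ↔ z ∈ C' := by
    intro z
    change lMap b z + (lMap b c + t2 - c) + c ∈ C ↔ z + c ∈ C
    rw [← h2 (z + c), map_add]
    have : lMap b z + (lMap b c + t2 - c) + c = lMap b z + lMap b c + t2 := by abel
    rw [this]
  have f1 := lin_of_affine hs1' g1
  have f2 : ∀ x y, ((x, y + (2 * (2 * m) * b) • x) : T) ∈ C' ↔ ((x, y) : T) ∈ C' := by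
    intro x y
    have := lin_of_affine (C := Prod.swap ⁻¹' C') (a := b) (m := 2 * m)
      (s := (lMap b c + t2 - c).swap) (by
        have := congrArg Prod.swap hs2'
        exact this) (fun z => g2 z.swap) y x
    exact this
  rcases closed_linear hcl (Nat.mul_pos (by omega) ha) (Nat.mul_pos (by omega) hb) f1 f2 with
    h | ⟨n, hn, h⟩
  · left
    rw [eq_univ_iff_forall] at h ⊢
    intro y
    have h3 : y - c ∈ C' := h (y - c)
    rw [hC', mem_ofPred_eq, sub_add_cancel] at h3
    exact h3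
  · right
    refine ⟨c, n, hn, fun y hy => h (y - c) ?_⟩
    rw [hC', mem_ofPred_eq, sub_add_cancel]
    exact hy

lemma finite_torsion_translate (c : T) {m : ℕ} (hm : 1 ≤ m) : {y : T | m • (y - c) = 0}.Finite := by
  have h1 : {u : UnitAddCircle | m • u = 0}.Finite := AddCircle.finite_torsion 1 hm
  have h2 : ({u : UnitAddCircle | m • u = 0} ×ˢ {u : UnitAddCircle | m • u = 0}).Finite :=
    h1.prod h1
  refine (h2.preimage (f := fun y : T => y - c) ?_).subset ?_
  · exact fun x _ y _ h => sub_left_injective h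
  · intro y hy
    exact ⟨congrArg Prod.fst hy, congrArg Prod.snd hy⟩

end Pool.Agent.H6.Veech
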