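import Pool.Agent.H6.Veech.Main

/-! Extension of the developing map from an open subset. -/

open Set Filter Topology MeasureTheory

namespace Pool.Agent.H6.Veech

/-- the projection `ℝ² → T` -/
def pr (z : ℝ × ℝ) : T := ((z.1 : UnitAddCircle), (z.2 : UnitAddCircle))

lemma continuous_pr : Continuous pr :=
  ((AddCircle.continuous_mk' 1).comp continuous_fst).prodMk
    ((AddCircle.continuous_mk' 1).comp continuous_snd)

lemma isOpenMap_pr : IsOpenMap pr :=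
  (QuotientAddGroup.isOpenMap_coe (N := AddSubgroup.zmultiples (1 : ℝ))).prodMap
    (QuotientAddGroup.isOpenMap_coe (N := AddSubgroup.zmultiples (1 : ℝ)))

lemma pr_surj (z : T) : ∃ r, pr r = z := by
  obtain ⟨x, y⟩ := z
  obtain ⟨r, rfl⟩ := QuotientAddGroup.mk_surjective x
  obtain ⟨s, rfl⟩ := QuotientAddGroup.mk_surjective y
  exact ⟨(r, s), rfl⟩

lemma countable_coe_fiber (x : UnitAddCircle) :
    ((fun r : ℝ => (r : UnitAddCircle)) ⁻¹' {x}).Countable := by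
  obtain ⟨r, rfl⟩ := QuotientAddGroup.mk_surjective x
  refine (countable_range (fun n : ℤ => r + n)).mono fun s hs => ?_
  have h1 : ((s : ℝ) : UnitAddCircle) = ((r : ℝ) : UnitAddCircle) := hs
  rw [← sub_eq_zero, ← AddCircle.coe_sub, AddCircle.coe_eq_zero_iff] at h1
  obtain ⟨n, hn⟩ := h1
  refine ⟨n, ?_⟩
  have : (n : ℝ) = s - r := by rw [← hn]; simp
  change r + (n : ℝ) = s
  rw [this]; ring

lemma countable_pr_preimage {F : Set T} (hF : F.Finite) : (pr ⁻¹' F).Countable := by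
  have h : pr ⁻¹' F ⊆ ⋃ y ∈ F, (((fun r : ℝ => (r : UnitAddCircle)) ⁻¹' {y.1}) ×ˢ
      ((fun r : ℝ => (r : UnitAddCircle)) ⁻¹' {y.2})) := by
    intro z hz
    simp only [mem_iUnion]
    exact ⟨pr z, hz, rfl, rfl⟩
  refine (hF.countable.biUnion fun y _ => ?_).mono h
  exact (countable_coe_fiber _).prod (countable_coe_fiber _)

lemma preconnected_ball_diff {S : Set (ℝ × ℝ)} (hS : S.Countable) (r : ℝ × ℝ) {ε : ℝ}
    (hε : 0 < ε) : IsPreconnected (Metric.ball r ε \ S) := by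
  have hrank : 1 < Module.rank ℝ (ℝ × ℝ) := by
    rw [rank_prod', Module.rank_self]
    norm_num
  let φ := OpenPartialHomeomorph.univBall r ε
  have hsrc : φ.source = univ := OpenPartialHomeomorph.univBall_source r ε
  have htgt : φ.target = Metric.ball r ε := OpenPartialHomeomorph.univBall_target r hε
  have hinj : Function.Injective φ := fun x y h =>
    φ.injOn (by rw [hsrc]; trivial) (by rw [hsrc]; trivial) h
  have hc : (φ ⁻¹' S).Countable := hS.preimage_of_injOn hinj.injOn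
  have h1 := (hc.isConnected_compl_of_one_lt_rank hrank).isPreconnected.image φ
    (OpenPartialHomeomorph.continuous_univBall r ε).continuousOn
  have h2 : φ '' (φ ⁻¹' S)ᶜ = Metric.ball r ε \ S := by
    ext z
    constructor
    · rintro ⟨w, hw, rfl⟩
      refine ⟨?_, hw⟩
      rw [← htgt]
      exact φ.map_source (by rw [hsrc]; trivial)
    · rintro ⟨hz, hzS⟩
      rw [← htgt] at hz
      refine ⟨φ.symm z, ?_, φ.right_inv hz⟩
      intro h
      apply hzS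
      have h3 : φ (φ.symm z) ∈ S := h
      rwa [φ.right_inv hz] at h3
  rwa [h2] at h1

/-- an open nonempty subset of the torus is not contained in a finite set -/
lemma open_diff_finite {O F : Set T} (hO : IsOpen O) (hne : O.Nonempty) (hF : F.Finite) :
    (O \ F).Nonempty := by
  by_contra h
  rw [not_nonempty_iff_eq_empty, sdiff_eq_empty] at h
  have h1 : (volume : Measure T) O = 0 := measure_mono_null h (volume_finite hF)
  obtain ⟨z, hz⟩ := hne
  obtain ⟨r, rfl⟩ := pr_surj z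
  have hU : IsOpen (pr ⁻¹' O) := hO.preimage continuous_pr
  have hcount : (pr ⁻¹' O).Countable := (countable_pr_preimage hF).mono (preimage_mono h)
  have h2 : (volume : Measure (ℝ × ℝ)) (pr ⁻¹' O) = 0 := hcount.measure_zero _
  exact (hU.measure_pos volume ⟨r, hz⟩).ne' h2

section ext

variable {M : Type*} [TopologicalSpace M] [T2Space M]

/-- `D` is, near the points of `N`, a chart up to a translation -/
def CompatOn (N : Set M) (𝒜 : Set (OpenPartialHomeomorph M T)) (D : M → T) : Prop :=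
  ∀ x ∈ N, ∀ φ ∈ 𝒜, x ∈ φ.source → ∃ c, ∀ᶠ y in 𝓝 x, D y = φ y + c

omit [T2Space M] in
/-- points avoiding a finite set -/
lemma pick (φ : OpenPartialHomeomorph M T) {U : Set M} (hU : IsOpen U) (hsub : U ⊆ φ.source)
    (hne : U.Nonempty) {F : Set T} (hF : F.Finite) : ∃ y ∈ U, φ y ∉ F := by
  obtain ⟨w, ⟨y, hy, rfl⟩, hw⟩ :=
    open_diff_finite (φ.isOpen_image_of_subset_source hU hsub) (hne.image φ) hF
  exact ⟨y, hy, hw⟩

omit [T2Space M] in
/-- locally a chart up to a translation: a local homeomorphism -/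
lemma isLocalHomeomorph_of_charts {D : M → T}
    (h : ∀ x, ∃ φ : OpenPartialHomeomorph M T, x ∈ φ.source ∧ ∃ c, ∀ᶠ y in 𝓝 x, D y = φ y + c) :
    IsLocalHomeomorph D := by
  refine IsLocalHomeomorph.mk D fun x => ?_
  obtain ⟨φ, hx, c, hc⟩ := h x
  obtain ⟨U, hU, hUo, hxU⟩ := mem_nhds_iff.1 hc
  refine ⟨(φ.restrOpen U hUo).trans (Homeomorph.addRight c).toOpenPartialHomeomorph, ?_, ?_⟩
  · simp [hx, hxU]
  · intro y hy
    have hyU : y ∈ U := by
      simp at hy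
      exact hy.2
    exact hU hyU

omit [T2Space M] in
lemma isLocalHomeomorph_sub {N : Set M} (hN : IsOpen N) {𝒜 : Set (OpenPartialHomeomorph M T)}
    (hcov : ∀ x, ∃ φ ∈ 𝒜, x ∈ φ.source) {D : M → T} (hD : CompatOn N 𝒜 D) :
    IsLocalHomeomorph (fun x : N => D x) := by
  refine isLocalHomeomorph_of_charts fun x => ?_
  obtain ⟨φ, hφ, hxφ⟩ := hcov x
  obtain ⟨c, hc⟩ := hD x x.2 φ hφ hxφ
  haveI : Nonempty N := ⟨x⟩
  refine ⟨(hN.isOpenEmbedding_subtypeVal.toOpenPartialHomeomorph (Subtype.val : N → M)).trans φ,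
    by simp [hxφ], c, ?_⟩
  exact (continuous_subtype_val.tendsto x).eventually hc

/-- **Local step.** -/
lemma local_step {N : Set M} (hN : IsOpen N) {𝒜 : Set (OpenPartialHomeomorph M T)}
    (hcov : ∀ x, ∃ φ ∈ 𝒜, x ∈ φ.source) {D : M → T} (hD : CompatOn N 𝒜 D)
    {F : Set T} (hF : F.Finite) {d : ℕ}
    (hd : ∀ y ∉ F, ((fun x : N => D x) ⁻¹' {y}).encard = d) {x : M} (hx : x ∈ closure N) :
    ∃ φ ∈ 𝒜, ∃ c : T, ∃ V : Set M, IsOpen V ∧ x ∈ V ∧ V ⊆ φ.source ∧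
      (∀ y ∈ V, y ∈ N → D y = φ y + c) ∧ (∀ y ∈ V, y ∉ N → φ y + c ∈ F) ∧ V ⊆ closure N := by
  have hDN : IsLocalHomeomorph (fun x : N => D x) := isLocalHomeomorph_sub hN hcov hD
  obtain ⟨φ, hφ, hxφ⟩ := hcov x
  obtain ⟨r, hr⟩ := pr_surj (φ x)
  have hopen : IsOpen (pr ⁻¹' φ.target) := φ.open_target.preimage continuous_pr
  have hrt : r ∈ pr ⁻¹' φ.target := by rw [mem_preimage, hr]; exact φ.map_source hxφ
  obtain ⟨ε, hε, hball⟩ := Metric.isOpen_iff.1 hopen r hrt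
  set B : Set T := pr '' Metric.ball r ε with hB
  have hBo : IsOpen B := isOpenMap_pr _ Metric.isOpen_ball
  have hBt : B ⊆ φ.target := by rintro _ ⟨z, hz, rfl⟩; exact hball hz
  set V : Set M := φ.source ∩ φ ⁻¹' B with hV
  have hVo : IsOpen V := φ.isOpen_inter_preimage hBo
  have hxV : x ∈ V := ⟨hxφ, ⟨r, Metric.mem_ball_self hε, hr⟩⟩
  obtain ⟨y0, hy0V, hy0N⟩ := mem_closure_iff.1 hx V hVo hxV
  obtain ⟨c, hc⟩ := hD y0 hy0N φ hφ hy0V.1
  -- the bad points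
  set Bad : Set T := {w | w + c ∈ F} with hBad
  have hBadfin : Bad.Finite := hF.preimage (f := fun w : T => w + c)
    (fun a _ b _ h => add_right_cancel h)
  -- the good points
  set N' : Set M := N ∩ {y | ∀ᶠ z in 𝓝 y, D z = φ z + c} with hN'
  have hN'o : IsOpen N' := hN.inter isOpen_setOfPred_eventually_nhds
  set O : Set T := B ∩ (φ.target ∩ φ.symm ⁻¹' N') with hO
  have hOo : IsOpen O := hBo.inter (φ.symm.isOpen_inter_preimage hN'o)
  have hy0O : φ y0 ∈ O := by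
    refine ⟨hy0V.2, φ.map_source hy0V.1, ?_⟩
    rw [mem_preimage, φ.left_inv hy0V.1]
    exact ⟨hy0N, hc⟩
  have hG : IsPreconnected (B \ Bad) := by
    have h1 := (preconnected_ball_diff (countable_pr_preimage hBadfin) r hε).image pr
      continuous_pr.continuousOn
    have h2 : pr '' (Metric.ball r ε \ pr ⁻¹' Bad) = B \ Bad := by
      ext w
      constructor
      · rintro ⟨z, ⟨hz, hzb⟩, rfl⟩; exact ⟨⟨z, hz, rfl⟩, hzb⟩
      · rintro ⟨⟨z, hz, rfl⟩, hzb⟩; exact ⟨z, ⟨hz, hzb⟩, rfl⟩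
    rwa [h2] at h1
  have hGO : (B \ Bad) ∩ O ≠ ∅ := by
    obtain ⟨w, hw, hwb⟩ := open_diff_finite hOo ⟨_, hy0O⟩ hBadfin
    exact nonempty_iff_ne_empty.1 ⟨w, ⟨hw.1, hwb⟩, hw⟩
  -- constants agree
  have hconst : ∀ y ∈ N, y ∈ φ.source → ∀ c1 : T, (∀ᶠ z in 𝓝 y, D z = φ z + c1) →
      (∃ᶠ z in 𝓝 y, D z = φ z + c) → ∀ᶠ z in 𝓝 y, D z = φ z + c := by
    intro y _ _ c1 h1 h2
    obtain ⟨z, hz2, hz1⟩ := (h2.and_eventually h1).exists
    have : c1 = c := by
      rw [hz2] at hz1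
      exact (add_left_cancel hz1).symm
    rwa [this] at h1
  have hsub : B \ Bad ⊆ O := by
    refine hG.subset_of_closure_inter_subset hOo (nonempty_iff_ne_empty.2 hGO) ?_
    rintro w ⟨hwcl, hwB, hwbad⟩
    have hwt : w ∈ φ.target := hBt hwB
    have hq : φ.symm w ∈ φ.source := φ.map_target hwt
    have hqN : φ.symm w ∈ N := by
      by_contra hqN
      have hfib : ((fun x : N => D x) ⁻¹' {w + c}).encard = d := hd _ hwbad
      have hfin : ((fun x : N => D x) ⁻¹' {w + c}).Finite := finite_of_encard_eq_coe hfib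
      have hSfin : ((Subtype.val : N → M) '' ((fun x : N => D x) ⁻¹' {w + c})).Finite :=
        hfin.image _
      have hdis : Disjoint {φ.symm w} ((Subtype.val : N → M) '' ((fun x : N => D x) ⁻¹' {w + c})) := by
        rw [disjoint_singleton_left]
        rintro ⟨e, -, he⟩
        exact hqN (he ▸ e.2)
      obtain ⟨U, W, hU, hW, hqU, hSW, hUW⟩ :=
        SeparatedNhds.of_isCompact_isCompact isCompact_singleton hSfin.isCompact hdis
      obtain ⟨V', hV'o, hwV', hV'⟩ := exists_common hDN hfin.toFinset (y := w + c)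
        (fun e he => hfin.mem_toFinset.1 he) ((Subtype.val : N → M) ⁻¹' W)
        (hW.preimage continuous_subtype_val)
        (fun e he => hSW ⟨e, hfin.mem_toFinset.1 he, rfl⟩)
      -- a nearby point of O
      have hopen1 : IsOpen (φ.target ∩ φ.symm ⁻¹' U) := φ.symm.isOpen_inter_preimage hU
      have hopen2 : IsOpen ((fun w : T => w + c) ⁻¹' (V' ∩ Fᶜ)) :=
        (hV'o.inter hF.isClosed.isOpen_compl).preimage (continuous_id.add continuous_const)
      obtain ⟨w', ⟨⟨hw't, hw'U⟩, hw'V, hw'F⟩, hw'O⟩ := mem_closure_iff.1 hwcl _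
        (hopen1.inter hopen2) ⟨⟨hwt, hqU rfl⟩, hwV', hwbad⟩
      have hq'N : φ.symm w' ∈ N := hw'O.2.2.1
      have hDq' : D (φ.symm w') = w' + c := by
        have := hw'O.2.2.2.self_of_nhds
        rwa [φ.right_inv hw't] at this
      obtain ⟨S', hc', hz', hW'⟩ := hV' _ hw'V
      have hfin' : ((fun x : N => D x) ⁻¹' {w' + c}).Finite :=
        finite_of_encard_eq_coe (hd _ hw'F)
      have heq : (S' : Set N) = (fun x : N => D x) ⁻¹' {w' + c} := by
        refine S'.finite_toSet.eq_of_subset_of_encard_le (fun e he => hz' e he) ?_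
        rw [encard_coe_eq_coe_finsetCard, hc', ← hfin.encard_eq_coe_toFinset_card, hfib,
          hd _ hw'F]
      have hmem : (⟨φ.symm w', hq'N⟩ : N) ∈ (S' : Set N) := by rw [heq]; exact hDq'
      exact (Set.disjoint_left.1 hUW) hw'U (hW' _ hmem)
    obtain ⟨c1, hc1⟩ := hD _ hqN φ hφ hq
    refine ⟨hwB, hwt, hqN, hconst _ hqN hq c1 hc1 ?_⟩
    rw [frequently_iff]
    intro U hU
    obtain ⟨U', hU'U, hU'o, hqU'⟩ := mem_nhds_iff.1 hU
    obtain ⟨w', ⟨hw't, hw'U⟩, hw'O⟩ := mem_closure_iff.1 hwcl _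
      (φ.symm.isOpen_inter_preimage hU'o) ⟨hwt, hqU'⟩
    exact ⟨φ.symm w', hU'U hw'U, hw'O.2.2.2.self_of_nhds⟩
  have hgood : ∀ y ∈ V, φ y ∉ Bad → y ∈ N ∧ ∀ᶠ z in 𝓝 y, D z = φ z + c := by
    intro y hy hyb
    have h := hsub ⟨hy.2, hyb⟩
    have h2 := h.2.2
    rw [mem_preimage, φ.left_inv hy.1] at h2
    exact h2
  refine ⟨φ, hφ, c, V, hVo, hxV, inter_subset_left, ?_, ?_, ?_⟩
  · intro y hyV hyN
    obtain ⟨c1, hc1⟩ := hD y hyN φ hφ hyV.1
    refine (hconst y hyN hyV.1 c1 hc1 ?_).self_of_nhds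
    rw [frequently_iff]
    intro U hU
    obtain ⟨U', hU'U, hU'o, hyU'⟩ := mem_nhds_iff.1 hU
    obtain ⟨z, hz, hzb⟩ := pick φ (hU'o.inter hVo) (fun z hz => hz.2.1) ⟨y, hyU', hyV⟩ hBadfin
    exact ⟨z, hU'U hz.1, (hgood z hz.2 hzb).2.self_of_nhds⟩
  · intro y hyV hyN
    by_contra hyF
    exact hyN (hgood y hyV hyF).1
  · intro y hyV
    rw [mem_closure_iff]
    intro U hU hyU
    obtain ⟨z, hz, hzb⟩ := pick φ (hU.inter hVo) (fun z hz => hz.2.1) ⟨y, hyU, hyV⟩ hBadfin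
    exact ⟨z, hz.1, (hgood z hz.2 hzb).1⟩

omit [T2Space M] in
lemma const_on {N : Set M} (hN : IsOpen N) (hNc : IsPreconnected N) (hNne : N.Nonempty)
    {𝒜 : Set (OpenPartialHomeomorph M T)} (hcov : ∀ x, ∃ φ ∈ 𝒜, x ∈ φ.source) {D : M → T}
    (hD : CompatOn N 𝒜 D) (u : T ≃+ T) (f : M ≃ₜ M) (hfN : ∀ x, f x ∈ N ↔ x ∈ N)
    (hf : ∀ φ ∈ 𝒜, ∀ ψ ∈ 𝒜, ∀ x ∈ φ.source, f x ∈ ψ.source →
      ∃ c, ∀ᶠ y in 𝓝 x, ψ (f y) = u (φ y) + c) :
    ∃ t : T, ∀ x ∈ N, D (f x) = u (D x) + t := by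
  haveI : PreconnectedSpace N := isPreconnected_iff_preconnectedSpace.1 hNc
  have hl : IsLocallyConstant (fun x : N => D (f x) - u (D x)) := by
    rw [IsLocallyConstant.iff_eventually_eq]
    intro x
    obtain ⟨φ, hφ, hxφ⟩ := hcov x
    obtain ⟨ψ, hψ, hxψ⟩ := hcov (f x)
    obtain ⟨c, hc⟩ := hf φ hφ ψ hψ x hxφ hxψ
    obtain ⟨c1, hc1⟩ := hD (f x) ((hfN x).2 x.2) ψ hψ hxψ
    obtain ⟨c2, hc2⟩ := hD x x.2 φ hφ hxφ
    have hc1' := (f.continuous.tendsto (x : M)).eventually hc1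
    have key : ∀ᶠ y in 𝓝 (x : M), D (f y) - u (D y) = c + c1 - u c2 := by
      filter_upwards [hc, hc1', hc2] with y h1 h2 h3
      rw [h2, h1, h3, map_add]; abel
    have h0 := key.self_of_nhds
    have key' : ∀ᶠ y : N in 𝓝 x, D (f y) - u (D y) = c + c1 - u c2 :=
      (continuous_subtype_val.tendsto x).eventually key
    filter_upwards [key'] with y hy
    rw [hy, h0]
  obtain ⟨x0, hx0⟩ := hNne
  refine ⟨D (f x0) - u (D x0), fun x hx => ?_⟩
  have h1 := hl.apply_eq_of_preconnectedSpace ⟨x, hx⟩ ⟨x0, hx0⟩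
  have h2 : D (f x) - u (D x) = D (f x0) - u (D x0) := h1
  rw [← h2, add_sub_cancel]

/-- **Extension.** -/
theorem extend [ConnectedSpace M] {N : Set M} (hN : IsOpen N) (hNne : N.Nonempty)
    {𝒜 : Set (OpenPartialHomeomorph M T)} (hcov : ∀ x, ∃ φ ∈ 𝒜, x ∈ φ.source)
    (htr : ∀ φ ∈ 𝒜, ∀ ψ ∈ 𝒜, ∀ x ∈ φ.source, x ∈ ψ.source → ∃ c, ∀ᶠ y in 𝓝 x, ψ y = φ y + c)
    {D : M → T} (hD : CompatOn N 𝒜 D) {F : Set T} (hF : F.Finite) {d : ℕ}
    (hd : ∀ y ∉ F, ((fun x : N => D x) ⁻¹' {y}).encard = d) :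
    ∃ D' : M → T, (∀ x ∈ N, D' x = D x) ∧ CompatOn univ 𝒜 D' ∧ IsLocalHomeomorph D' ∧
      Dense N ∧ ∀ x ∉ N, D' x ∈ F := by
  have hstep := fun x (hx : x ∈ closure N) => local_step hN hcov hD hF hd hx
  have hcl : closure N = univ := by
    refine IsClopen.eq_univ ⟨isClosed_closure, isOpen_iff_mem_nhds.2 fun x hx => ?_⟩ hNne.closure
    obtain ⟨φ, hφ, c, V, hV, hxV, -, -, -, hVN⟩ := hstep x hx
    exact mem_of_superset (hV.mem_nhds hxV) hVN
  have hdense : Dense N := dense_iff_closure_eq.2 hcl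
  have hloc : ∀ x, ∃ φ ∈ 𝒜, ∃ c : T, ∃ V : Set M, IsOpen V ∧ x ∈ V ∧ V ⊆ φ.source ∧
      (∀ y ∈ V, extendFrom N D y = φ y + c) ∧ (∀ y ∈ V, y ∈ N → D y = φ y + c) ∧
      (∀ y ∈ V, y ∉ N → φ y + c ∈ F) := by
    intro x
    obtain ⟨φ, hφ, c, V, hV, hxV, hVs, hV1, hV2, -⟩ := hstep x (hdense x)
    refine ⟨φ, hφ, c, V, hV, hxV, hVs, fun y hy => ?_, hV1, hV2⟩
    refine extendFrom_eq (hdense y) ?_
    have h1 : Tendsto (fun z => φ z + c) (𝓝[N] y) (𝓝 (φ y + c)) :=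
      ((φ.continuousAt (hVs hy)).add continuousAt_const).tendsto.mono_left nhdsWithin_le_nhds
    refine h1.congr' ?_
    filter_upwards [self_mem_nhdsWithin, nhdsWithin_le_nhds (hV.mem_nhds hy)] with z hzN hzV
    exact (hV1 z hzV hzN).symm
  refine ⟨extendFrom N D, ?_, ?_, ?_, hdense, ?_⟩
  · intro x hx
    obtain ⟨φ, hφ, c, V, hV, hxV, hVs, h0, hV1, hV2⟩ := hloc x
    rw [h0 x hxV, hV1 x hxV hx]
  · intro x _ ψ hψ hxψ
    obtain ⟨φ, hφ, c, V, hV, hxV, hVs, h0, hV1, hV2⟩ := hloc x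
    obtain ⟨c', hc'⟩ := htr φ hφ ψ hψ x (hVs hxV) hxψ
    refine ⟨c - c', ?_⟩
    filter_upwards [hV.mem_nhds hxV, hc'] with y hyV hy
    rw [h0 y hyV, hy]; abel
  · refine isLocalHomeomorph_of_charts fun x => ?_
    obtain ⟨φ, hφ, c, V, hV, hxV, hVs, h0, hV1, hV2⟩ := hloc x
    refine ⟨φ, hVs hxV, c, ?_⟩
    filter_upwards [hV.mem_nhds hxV] with y hyV
    exact h0 y hyV
  · intro x hx
    obtain ⟨φ, hφ, c, V, hV, hxV, hVs, h0, hV1, hV2⟩ := hloc x
    rw [h0 x hxV]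
    exact hV2 x hxV hx

end ext

end Pool.Agent.H6.Veech
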