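import Pool.Agent.H45.VT.Main
import Pool.Agent.H6.Veech.Extend

/-! The theorem for an invariant open subset with periods in the lattice. -/

open Set Filter Topology MeasureTheory

namespace Pool.Agent.H6.Veech

variable {M : Type*} [TopologicalSpace M] [T2Space M]

lemma vol_fin {F : Set T} (hF : F.Finite) : (volume : Measure T) F = 0 := volume_finite hF

/-- equality of areas when the fibres agree off a finite set -/
lemma area_congr {g h : T → ENNReal} {F : Set T} (hF : F.Finite) (hgh : ∀ y ∉ F, g y = h y) :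
    ∫⁻ y : T, g y = ∫⁻ y : T, h y := by
  refine lintegral_congr_ae ?_
  have : ∀ᵐ y : T, y ∉ F := by
    rw [ae_iff]; simpa using volume_finite hF
  filter_upwards [this] with y hy
  exact hgh y hy

theorem big [ConnectedSpace M] {N : Set M} (hN : IsOpen N) (hNc : IsConnected N)
    {𝒜 : Set (OpenPartialHomeomorph M T)} (hcov : ∀ x, ∃ φ ∈ 𝒜, x ∈ φ.source)
    (htr : ∀ φ ∈ 𝒜, ∀ ψ ∈ 𝒜, ∀ x ∈ φ.source, x ∈ ψ.source → ∃ c, ∀ᶠ y in 𝓝 x, ψ y = φ y + c)
    {D : M → T} (hD : CompatOn N 𝒜 D) {a b : ℕ} (ha : 1 ≤ a) (hb : 1 ≤ b) (f1 f2 : M ≃ₜ M)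
    (hN1 : ∀ x, f1 x ∈ N ↔ x ∈ N) (hN2 : ∀ x, f2 x ∈ N ↔ x ∈ N)
    (hf1 : ∀ φ ∈ 𝒜, ∀ ψ ∈ 𝒜, ∀ x ∈ φ.source, f1 x ∈ ψ.source →
      ∃ c, ∀ᶠ y in 𝓝 x, ψ (f1 y) = uMap a (φ y) + c)
    (hf2 : ∀ φ ∈ 𝒜, ∀ ψ ∈ 𝒜, ∀ x ∈ φ.source, f2 x ∈ ψ.source →
      ∃ c, ∀ᶠ y in 𝓝 x, ψ (f2 y) = lMap b (φ y) + c) :
    (∫⁻ y : T, (((fun x : N => D x) ⁻¹' {y}).encard : ENNReal) < ⊤ →
      ∃ D' : M → T, (∀ x ∈ N, D' x = D x) ∧ CompatOn univ 𝒜 D' ∧ IsLocalHomeomorph D' ∧
        (Nᶜ).Finite ∧ ∃ (w : T) (d : ℕ) (F : Set T), 1 ≤ d ∧ F.Finite ∧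
        (∃ m : ℕ, 1 ≤ m ∧ ∀ y ∈ F, m • (y - w) = 0) ∧
        (∀ y, (D' ⁻¹' {y}).encard ≤ d) ∧ (∀ y ∉ F, (D' ⁻¹' {y}).encard = d) ∧
        (D' ⁻¹' F).Finite ∧ IsCoveringMapOn D' Fᶜ ∧
        ∫⁻ y : T, ((D' ⁻¹' {y}).encard : ENNReal) = d ∧
        ∫⁻ y : T, (((fun x : N => D x) ⁻¹' {y}).encard : ENNReal) = d) ∧
      (∫⁻ y : T, (((fun x : N => D x) ⁻¹' {y}).encard : ENNReal) = ⊤ →
        ∃ w : T, ∀ y : T, (∀ m : ℕ, 1 ≤ m → m • (y - w) ≠ 0) →
          ((fun x : N => D x) ⁻¹' {y}).Infinite) := by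
  obtain ⟨t1, e1⟩ := const_on hN hNc.isPreconnected hNc.nonempty hcov hD (uMap a) f1 hN1 hf1
  obtain ⟨t2, e2⟩ := const_on hN hNc.isPreconnected hNc.nonempty hcov hD (lMap b) f2 hN2 hf2
  have hDN : IsLocalHomeomorph (fun x : N => D x) := isLocalHomeomorph_sub hN hcov hD
  have : Nonempty N := hNc.nonempty.to_subtype
  obtain ⟨w, hfull⟩ := Pool.Agent.H45.VT.core (v1 := t1) (v2 := t2) hDN ha hb
    (f1.toEquiv.subtypeEquiv fun x => (hN1 x).symm)
    (f2.toEquiv.subtypeEquiv fun x => (hN2 x).symm)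
    (fun x => e1 x x.2) (fun x => e2 x x.2)
  refine ⟨fun hfin => ?_, fun hinf =>
    ⟨w, fun y hy => Pool.Agent.H45.VT.infinite_area hinf hfull hy⟩⟩
  obtain ⟨d, F, hd1, hF, hm, hle, heq, hFf, hcovD, harea⟩ :=
    Pool.Agent.H45.VT.finite_area hDN hfin hfull
  obtain ⟨D', hD'N, hD'c, hD'l, hdense, hD'F⟩ :=
    extend hN hNc.nonempty hcov htr hD hF heq
  have hcont : Continuous D' := hD'l.continuous
  have e1' : ∀ x, D' (f1 x) = uMap a (D' x) + t1 := by
    have hu : Continuous fun z : T => uMap a z := by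
      change Continuous fun z : T => ((z.1 + a • z.2, z.2) : T); fun_prop
    have h := Continuous.ext_on hdense (hcont.comp f1.continuous)
      ((hu.comp hcont).add (continuous_const (y := t1))) (fun x hx => by
        change D' (f1 x) = uMap a (D' x) + t1
        rw [hD'N _ ((hN1 x).2 hx), hD'N _ hx, e1 x hx])
    exact fun x => congrFun h x
  have e2' : ∀ x, D' (f2 x) = lMap b (D' x) + t2 := by
    have hu : Continuous fun z : T => lMap b z := by
      change Continuous fun z : T => ((z.1, z.2 + b • z.1) : T); fun_prop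
    have h := Continuous.ext_on hdense (hcont.comp f2.continuous)
      ((hu.comp hcont).add (continuous_const (y := t2))) (fun x hx => by
        change D' (f2 x) = lMap b (D' x) + t2
        rw [hD'N _ ((hN2 x).2 hx), hD'N _ hx, e2 x hx])
    exact fun x => congrFun h x
  -- the fibres agree off `F`
  have hfib : ∀ y ∉ F, (D' ⁻¹' {y}).encard = ((fun x : N => D x) ⁻¹' {y}).encard := by
    intro y hy
    have h1 : D' ⁻¹' {y} = (Subtype.val : N → M) '' ((fun x : N => D x) ⁻¹' {y}) := by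
      ext x
      constructor
      · intro hx
        have hx' : D' x = y := hx
        have hxN : x ∈ N := by
          by_contra hxN
          exact hy (hx' ▸ hD'F x hxN)
        exact ⟨⟨x, hxN⟩, (hD'N x hxN).symm.trans hx', rfl⟩
      · rintro ⟨e, he, rfl⟩
        exact (hD'N _ e.2).trans he
    rw [h1, Subtype.val_injective.encard_image]
  have harea' : ∫⁻ y : T, ((D' ⁻¹' {y}).encard : ENNReal) =
      ∫⁻ y : T, (((fun x : N => D x) ⁻¹' {y}).encard : ENNReal) :=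
    area_congr hF fun y hy => by rw [hfib y hy]
  obtain ⟨w', hfull'⟩ := Pool.Agent.H45.VT.core (v1 := t1) (v2 := t2) hD'l ha hb
    f1.toEquiv f2.toEquiv e1' e2'
  have hfinD' : ∫⁻ y : T, ((D' ⁻¹' {y}).encard : ENNReal) < ⊤ := by rw [harea']; exact hfin
  obtain ⟨d', F', hd1', hF', hm', hle', heq', hFf', hcovD', harea''⟩ :=
    Pool.Agent.H45.VT.finite_area hD'l hfinD' hfull'
  refine ⟨D', hD'N, hD'c, hD'l, ?_, w', d', F', hd1', hF', hm', hle', heq', hFf', hcovD', harea'',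
    by rw [← harea', harea'']⟩
  refine (hF.preimage' (f := D') fun y _ => finite_of_encard_le_coe (hle' y)).subset fun x hx => ?_
  exact hD'F x hx

end Pool.Agent.H6.Veech
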