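import Pool.Agent.H6.Veech.Comp

/-! The theorem for an arbitrary invariant open subset of finite area. -/

open Set Filter Topology MeasureTheory

namespace Pool.Agent.H6.Veech

variable {M : Type*} [TopologicalSpace M]

omit [TopologicalSpace M] in
lemma encard_sub' (N : Set M) (D : M → T) (y : T) :
    (N ∩ D ⁻¹' {y}).encard = ((fun x : N => D x) ⁻¹' {y}).encard := by
  have h : N ∩ D ⁻¹' {y} = (Subtype.val : N → M) '' ((fun x : N => D x) ⁻¹' {y}) := by
    ext x
    constructor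
    · rintro ⟨hx, hy⟩; exact ⟨⟨x, hx⟩, hy, rfl⟩
    · rintro ⟨e, he, rfl⟩; exact ⟨e.2, he⟩
  rw [h, Subtype.val_injective.encard_image]

lemma ar_eq (N : Set M) (D : M → T) :
    ar D N = ∫⁻ y : T, (((fun x : N => D x) ⁻¹' {y}).encard : ENNReal) := by
  unfold ar
  exact lintegral_congr fun y => by rw [encard_sub']

lemma mem_iff' {N : Set M} {f : M ≃ₜ M} (h : f '' N = N) (x : M) : f x ∈ N ↔ x ∈ N := by
  constructor
  · intro hx
    rw [← h] at hx
    obtain ⟨z, hz, hzx⟩ := hx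
    rwa [f.injective hzx] at hz
  · intro hx
    rw [← h]
    exact ⟨x, hx, rfl⟩

/-- an open subset of `M` which is finite is empty -/
lemma open_finite_empty {𝒜 : Set (OpenPartialHomeomorph M T)}
    (hcov : ∀ x, ∃ φ ∈ 𝒜, x ∈ φ.source) {U : Set M} (hU : IsOpen U) (hfin : U.Finite) : U = ∅ := by
  by_contra hne
  obtain ⟨z, hz⟩ := nonempty_iff_ne_empty.2 hne
  obtain ⟨φ, hφ, hzφ⟩ := hcov z
  have hf : (φ '' (U ∩ φ.source)).Finite := (hfin.subset inter_subset_left).image _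
  obtain ⟨y, hy, hyn⟩ := pick φ (hU.inter φ.open_source) inter_subset_right ⟨z, hz, hzφ⟩ hf
  exact hyn ⟨y, hy, rfl⟩

theorem connected_of_finite_area [T2Space M] [LocallyConnectedSpace M] [ConnectedSpace M]
    {N : Set M} (hN : IsOpen N) (hNne : N.Nonempty)
    {𝒜 : Set (OpenPartialHomeomorph M T)} (hcov : ∀ x, ∃ φ ∈ 𝒜, x ∈ φ.source)
    (htr : ∀ φ ∈ 𝒜, ∀ ψ ∈ 𝒜, ∀ x ∈ φ.source, x ∈ ψ.source → ∃ c, ∀ᶠ y in 𝓝 x, ψ y = φ y + c)
    {D : M → T} (hD : CompatOn N 𝒜 D) {a b : ℕ} (ha : 1 ≤ a) (hb : 1 ≤ b) (f1 f2 : M ≃ₜ M)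
    (hN1 : f1 '' N = N) (hN2 : f2 '' N = N) (hf1 : Aff 𝒜 (uMap a) f1) (hf2 : Aff 𝒜 (lMap b) f2)
    (hfin : ar D N < ⊤) : IsConnected N := by
  obtain ⟨x0, hx0⟩ := hNne
  obtain ⟨k, hk, hk0⟩ := exists_power hN hcov hD hfin.ne (uHom a) (uMap a) (fun _ => rfl) (mp_u a)
    f1 hN1 hf1 hx0
  obtain ⟨l, hl, hl0⟩ := exists_power hN hcov hD hfin.ne (lHom b) (lMap b) (fun _ => rfl) (mp_l b)
    f2 hN2 hf2 hx0
  set N0 := connectedComponentIn N x0 with hN0
  have hN0o : IsOpen N0 := hN.connectedComponentIn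
  have hN0c : IsConnected N0 := isConnected_connectedComponentIn_iff.2 hx0
  have hsub : N0 ⊆ N := connectedComponentIn_subset N x0
  have hD0 : CompatOn N0 𝒜 D := fun x hx => hD x (hsub hx)
  have har : ∫⁻ y : T, (((fun x : N0 => D x) ⁻¹' {y}).encard : ENNReal) < ⊤ := by
    rw [← ar_eq]
    refine lt_of_le_of_lt ?_ hfin
    unfold ar
    refine lintegral_mono fun y => ?_
    exact ENat.toENNReal_le.2 (encard_le_encard (inter_subset_inter_left _ hsub))
  obtain ⟨D', -, -, -, hc, -⟩ := (big hN0o hN0c hcov htr hD0 (Nat.mul_pos hk ha)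
    (Nat.mul_pos hl hb) (iter f1 k) (iter f2 l) (mem_iff' hk0) (mem_iff' hl0)
    (aff_iter_u hcov htr hf1 k) (aff_iter_l hcov htr hf2 l)).1 har
  have hNN0 : N = N0 := by
    refine subset_antisymm (fun z hz => ?_) hsub
    by_contra hz0
    have hdis : connectedComponentIn N z ⊆ N0ᶜ := by
      intro y hy hy0
      apply hz0
      have h1 := connectedComponentIn_eq hy
      have h2 := connectedComponentIn_eq hy0
      rw [hN0, h2, ← h1]
      exact mem_connectedComponentIn hz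
    have hemp := open_finite_empty hcov (hN.connectedComponentIn (x := z)) (hc.subset hdis)
    have := mem_connectedComponentIn hz
    rw [hemp] at this
    exact this
  rw [hNN0]
  exact hN0c

end Pool.Agent.H6.Veech
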