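import Mathlib

/-! Closed subsets of the torus invariant under two unipotent maps. -/

open Set Filter Topology

namespace Pool.Agent.H6.Veech

abbrev T : Type := UnitAddCircle × UnitAddCircle

lemma norm_coe_le (t : ℝ) : ‖((t : ℝ) : UnitAddCircle)‖ ≤ |t| := by
  rw [UnitAddCircle.norm_eq]
  simpa using round_le t 0

/-- multiples of a small nonzero element are dense at its own scale -/
lemma step (v x : UnitAddCircle) (hv : v ≠ 0) : ∃ k : ℤ, ‖x - k • v‖ ≤ ‖v‖ := by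
  obtain ⟨r0, rfl⟩ := QuotientAddGroup.mk_surjective v
  obtain ⟨s, rfl⟩ := QuotientAddGroup.mk_surjective x
  set r : ℝ := r0 - round r0 with hr
  have hrv : ((r : ℝ) : UnitAddCircle) = ((r0 : ℝ) : UnitAddCircle) := by
    rw [hr]
    rw [AddCircle.coe_sub]
    have : (((round r0 : ℤ) : ℝ) : UnitAddCircle) = 0 := by
      rw [AddCircle.coe_eq_zero_iff]
      exact ⟨round r0, by simp⟩
    rw [this, sub_zero]
  have hnorm : ‖((r0 : ℝ) : UnitAddCircle)‖ = |r| := by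
    rw [UnitAddCircle.norm_eq]
  have hr0 : r ≠ 0 := by
    intro h
    apply hv
    change ((r0 : ℝ) : UnitAddCircle) = 0
    rw [← hrv, h]; simp
  refine ⟨round (s / r), ?_⟩
  change ‖((s : ℝ) : UnitAddCircle) - (round (s / r)) • ((r0 : ℝ) : UnitAddCircle)‖ ≤
    ‖((r0 : ℝ) : UnitAddCircle)‖
  rw [hnorm, ← hrv, ← AddCircle.coe_zsmul, ← AddCircle.coe_sub]
  refine (norm_coe_le _).trans ?_
  have h1 : s - round (s / r) • r = r * (s / r - round (s / r)) := by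
    rw [zsmul_eq_mul]; field_simp
  rw [h1, abs_mul]
  have h2 := abs_sub_round (s / r)
  nlinarith [abs_nonneg r]

/-- if no multiple `j z`, `1 ≤ j ≤ n`, vanishes, the coset `w + ℤ z` is `1/(n+1)`-dense -/
lemma dens (z w x : UnitAddCircle) (n : ℕ) (hn : 0 < n)
    (hz : ∀ j : ℕ, 1 ≤ j → j ≤ n → j • z ≠ 0) :
    ∃ k : ℤ, ‖x - (w + k • z)‖ ≤ 1 / ((n : ℝ) + 1) := by
  obtain ⟨j, hj, hjn⟩ := AddCircle.exists_norm_nsmul_le (T := (1 : ℝ)) z hn
  obtain ⟨k, hk⟩ := step (j • z) (x - w) (hz j hj.1 hj.2)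
  refine ⟨k * j, ?_⟩
  have h1 : x - (w + (k * (j : ℤ)) • z) = x - w - k • (j • z) := by
    rw [mul_zsmul, ← sub_sub]
    congr 2
  rw [h1]
  refine hk.trans (hjn.trans (le_of_eq ?_))
  push_cast
  rfl

/-- an element of infinite order -/
def Inf (z : UnitAddCircle) : Prop := ∀ j : ℕ, 1 ≤ j → j • z ≠ 0

lemma exists_inf : ∃ z : UnitAddCircle, Inf z := by
  refine ⟨((Real.sqrt 2 : ℝ) : UnitAddCircle), ?_⟩
  have h1 : DenseRange (· • ((Real.sqrt 2 : ℝ) : UnitAddCircle) : ℤ → UnitAddCircle) := by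
    rw [AddCircle.denseRange_zsmul_coe_iff]
    simpa using irrational_sqrt_two
  have h2 := AddCircle.denseRange_zsmul_iff.1 h1
  intro j hj
  rw [addOrderOf_eq_zero_iff'] at h2
  exact h2 j hj

/-- invariance under `(x,y) ↦ (x + a y, y)` for integer multiples -/
lemma multU {C : Set T} {a : ℕ} (h1 : ∀ x y, ((x + a • y, y) : T) ∈ C ↔ ((x, y) : T) ∈ C)
    (k : ℤ) (x y : UnitAddCircle) : ((x + k • (a • y), y) : T) ∈ C ↔ ((x, y) : T) ∈ C := by
  induction k using Int.induction_on generalizing x with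
  | zero => simp
  | succ n ih =>
    rw [add_zsmul, one_zsmul, ← add_assoc, h1]
    exact ih x
  | pred n ih =>
    rw [← ih x]
    have := h1 (x + (-(n : ℤ) - 1) • (a • y)) y
    rw [← this, add_assoc, sub_zsmul, one_zsmul, neg_add_cancel_right]

lemma inf_mul {z : UnitAddCircle} (hz : Inf z) {a : ℕ} (ha : 1 ≤ a) : Inf (a • z) := by
  intro j hj
  rw [← mul_nsmul']
  exact hz _ (Nat.mul_pos hj ha)

/-- a point with `y` of infinite order: the whole horizontal circle -/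
lemma circU {C : Set T} (hC : IsClosed C) {a : ℕ} (ha : 1 ≤ a)
    (h1 : ∀ x y, ((x + a • y, y) : T) ∈ C ↔ ((x, y) : T) ∈ C)
    {x y : UnitAddCircle} (hxy : ((x, y) : T) ∈ C) (hy : Inf y) (x' : UnitAddCircle) :
    ((x', y) : T) ∈ C := by
  have hz := inf_mul hy ha
  have h2 : ∀ n : ℕ, ∃ k : ℤ, ‖x' - (x + k • (a • y))‖ ≤ 1 / (((n + 1 : ℕ) : ℝ) + 1) := fun n =>
    dens (a • y) x x' (n + 1) (Nat.succ_pos n) (fun j hj _ => hz j hj)
  choose k hk using h2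
  have h3 : Tendsto (fun n : ℕ => ((x + k n • (a • y), y) : T)) atTop (𝓝 (x', y)) := by
    rw [nhds_prod_eq]
    refine Tendsto.prodMk ?_ tendsto_const_nhds
    rw [tendsto_iff_norm_sub_tendsto_zero]
    refine squeeze_zero (fun n => norm_nonneg _) (fun n => ?_)
      ((tendsto_one_div_add_atTop_nhds_zero_nat (𝕜 := ℝ)).comp (tendsto_add_atTop_nat 1))
    rw [← norm_neg, neg_sub]
    exact hk n
  exact hC.mem_of_tendsto h3 (Eventually.of_forall fun n => (multU h1 (k n) x y).2 hxy)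

/-- swapping the coordinates -/
lemma circL {C : Set T} (hC : IsClosed C) {b : ℕ} (hb : 1 ≤ b)
    (h2 : ∀ x y, ((x, y + b • x) : T) ∈ C ↔ ((x, y) : T) ∈ C)
    {x y : UnitAddCircle} (hxy : ((x, y) : T) ∈ C) (hx : Inf x) (y' : UnitAddCircle) :
    ((x, y') : T) ∈ C := by
  have h := circU (C := Prod.swap ⁻¹' C) (hC.preimage continuous_swap) hb
    (fun x y => h2 y x) (x := y) (y := x) hxy hx y'
  exact h

/-- unbounded orders of the second coordinate: everything -/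
lemma unbounded {C : Set T} (hC : IsClosed C) {a b : ℕ} (ha : 1 ≤ a) (hb : 1 ≤ b)
    (h1 : ∀ x y, ((x + a • y, y) : T) ∈ C ↔ ((x, y) : T) ∈ C)
    (h2 : ∀ x y, ((x, y + b • x) : T) ∈ C ↔ ((x, y) : T) ∈ C)
    (hu : ∀ n : ℕ, ∃ x y, ((x, y) : T) ∈ C ∧ ∀ j : ℕ, 1 ≤ j → j ≤ n → j • y ≠ 0) :
    C = univ := by
  have h3 : ∀ n : ℕ, ∃ x y, ((x, y) : T) ∈ C ∧ ∀ j : ℕ, 1 ≤ j → j ≤ n + 1 → j • (a • y) ≠ 0 := by
    intro n
    obtain ⟨x, y, hxy, h⟩ := hu ((n + 1) * a)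
    refine ⟨x, y, hxy, fun j hj hjn => ?_⟩
    rw [← mul_nsmul']
    exact h _ (Nat.mul_pos hj ha) (Nat.mul_le_mul_right a hjn)
  choose X Y hXY hY using h3
  obtain ⟨y, -, φ, hφ, hlim⟩ := (isCompact_univ (X := UnitAddCircle)).tendsto_subseq
    (x := Y) (fun n => mem_univ _)
  have h4 : ∀ x', ((x', y) : T) ∈ C := by
    intro x'
    have h5 : ∀ n : ℕ, ∃ k : ℤ,
        ‖x' - (X n + k • (a • Y n))‖ ≤ 1 / (((n + 1 : ℕ) : ℝ) + 1) := fun n =>
      dens (a • Y n) (X n) x' (n + 1) (Nat.succ_pos n) (hY n)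
    choose k hk using h5
    have h6 : Tendsto (fun n : ℕ => ((X (φ n) + k (φ n) • (a • Y (φ n)), Y (φ n)) : T)) atTop
        (𝓝 (x', y)) := by
      rw [nhds_prod_eq]
      refine Tendsto.prodMk ?_ hlim
      rw [tendsto_iff_norm_sub_tendsto_zero]
      refine squeeze_zero (fun n => norm_nonneg _) (fun n => ?_)
        (((tendsto_one_div_add_atTop_nhds_zero_nat (𝕜 := ℝ)).comp
          (tendsto_add_atTop_nat 1)).comp hφ.tendsto_atTop)
      rw [← norm_neg, neg_sub]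
      exact hk (φ n)
    exact hC.mem_of_tendsto h6 (Eventually.of_forall fun n => (multU h1 _ _ _).2 (hXY (φ n)))
  have h7 : ∀ x', Inf x' → ∀ y', ((x', y') : T) ∈ C := fun x' hx' y' =>
    circL hC hb h2 (h4 x') hx' y'
  obtain ⟨g, hg⟩ := exists_inf
  have hodd : ∀ k : ℤ, Inf (g + k • (2 • g)) := by
    intro k j hj h
    have h8 : ((j : ℤ) * (1 + k * 2)) • g = 0 := by
      rw [← h, mul_zsmul, natCast_zsmul, add_zsmul, one_zsmul, mul_zsmul]
      congr 2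
    have h9 : (((j : ℤ) * (1 + k * 2)).natAbs) • g = 0 := by
      rw [← natCast_zsmul, Int.natCast_natAbs]
      rcases abs_choice ((j : ℤ) * (1 + k * 2)) with h | h
      · rw [h, h8]
      · rw [h, neg_zsmul, h8, neg_zero]
    refine hg _ ?_ h9
    rw [Nat.one_le_iff_ne_zero, Int.natAbs_ne_zero]
    refine mul_ne_zero (by exact_mod_cast Nat.one_le_iff_ne_zero.1 hj) (by omega)
  rw [eq_univ_iff_forall]
  rintro ⟨x0, y0⟩
  have hz := inf_mul hg (a := 2) (by norm_num)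
  have h10 : ∀ n : ℕ, ∃ k : ℤ, ‖x0 - (g + k • (2 • g))‖ ≤ 1 / (((n + 1 : ℕ) : ℝ) + 1) := fun n =>
    dens (2 • g) g x0 (n + 1) (Nat.succ_pos n) (fun j hj _ => hz j hj)
  choose k hk using h10
  have h11 : Tendsto (fun n : ℕ => ((g + k n • (2 • g), y0) : T)) atTop (𝓝 (x0, y0)) := by
    rw [nhds_prod_eq]
    refine Tendsto.prodMk ?_ tendsto_const_nhds
    rw [tendsto_iff_norm_sub_tendsto_zero]
    refine squeeze_zero (fun n => norm_nonneg _) (fun n => ?_)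
      ((tendsto_one_div_add_atTop_nhds_zero_nat (𝕜 := ℝ)).comp (tendsto_add_atTop_nat 1))
    rw [← norm_neg, neg_sub]
    exact hk n
  exact hC.mem_of_tendsto h11 (Eventually.of_forall fun n => h7 _ (hodd (k n)) y0)

/-- **Lemma L.** -/
theorem closed_linear {C : Set T} (hC : IsClosed C) {a b : ℕ} (ha : 1 ≤ a) (hb : 1 ≤ b)
    (h1 : ∀ x y, ((x + a • y, y) : T) ∈ C ↔ ((x, y) : T) ∈ C)
    (h2 : ∀ x y, ((x, y + b • x) : T) ∈ C ↔ ((x, y) : T) ∈ C) :
    C = univ ∨ ∃ m : ℕ, 1 ≤ m ∧ ∀ y ∈ C, m • y = 0 := by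
  by_cases hA : ∀ n : ℕ, ∃ x y, ((x, y) : T) ∈ C ∧ ∀ j : ℕ, 1 ≤ j → j ≤ n → j • y ≠ 0
  · exact Or.inl (unbounded hC ha hb h1 h2 hA)
  by_cases hB : ∀ n : ℕ, ∃ y x, ((x, y) : T) ∈ C ∧ ∀ j : ℕ, 1 ≤ j → j ≤ n → j • x ≠ 0
  · left
    have h := unbounded (C := Prod.swap ⁻¹' C) (hC.preimage continuous_swap) hb ha
      (fun x y => h2 y x) (fun x y => h1 y x) hB
    rw [eq_univ_iff_forall] at h ⊢
    rintro ⟨x, y⟩
    exact h (y, x)
  push Not at hA hB
  obtain ⟨n, hn⟩ := hA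
  obtain ⟨m, hm⟩ := hB
  right
  refine ⟨n.factorial * m.factorial, Nat.mul_pos n.factorial_pos m.factorial_pos, ?_⟩
  rintro ⟨x, y⟩ hxy
  obtain ⟨j, hj, hjn, hj0⟩ := hn x y hxy
  obtain ⟨i, hi, him, hi0⟩ := hm y x hxy
  obtain ⟨c, hc⟩ := Nat.dvd_factorial hj hjn
  obtain ⟨d, hd⟩ := Nat.dvd_factorial hi him
  have e1 : (n.factorial * m.factorial) • x = 0 := by
    rw [hd, ← mul_assoc, mul_comm (n.factorial) i, mul_assoc, mul_comm i, mul_nsmul', hi0,
      nsmul_zero]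
  have e2 : (n.factorial * m.factorial) • y = 0 := by
    rw [hc, mul_assoc, mul_comm j, mul_nsmul', hj0, nsmul_zero]
  exact Prod.ext e1 e2

end Pool.Agent.H6.Veech
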