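import Pool.Agent.H6.Veech.Big

/-! Invariant open subsets which are not assumed to be connected. -/

open Set Filter Topology MeasureTheory

namespace Pool.Agent.H6.Veech

/-- shears are homeomorphisms of the torus -/
def uHom (a : ℕ) : T ≃ₜ T where
  toEquiv := (uMap a).toEquiv
  continuous_toFun := by
    change Continuous (fun z : T => ((z.1 + a • z.2, z.2) : T)); fun_prop
  continuous_invFun := by
    change Continuous (fun z : T => ((z.1 - a • z.2, z.2) : T)); fun_prop

def lHom (b : ℕ) : T ≃ₜ T where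
  toEquiv := (lMap b).toEquiv
  continuous_toFun := by
    change Continuous (fun z : T => ((z.1, z.2 + b • z.1) : T)); fun_prop
  continuous_invFun := by
    change Continuous (fun z : T => ((z.1, z.2 - b • z.1) : T)); fun_prop

lemma mp_l (b : ℕ) (t : T) : MeasurePreserving (fun z : T => lMap b z + t) volume volume := by
  have h1 : MeasurePreserving (fun x : UnitAddCircle => x + t.1) volume volume :=
    measurePreserving_add_right volume t.1
  have hm : Measurable (Function.uncurry fun (x y : UnitAddCircle) => y + (b • x + t.2)) := by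
    have : Continuous (Function.uncurry fun (x y : UnitAddCircle) => y + (b • x + t.2)) := by
      unfold Function.uncurry; fun_prop
    exact this.measurable
  have h2 := h1.skew_product (μc := (volume : Measure UnitAddCircle))
    (μd := (volume : Measure UnitAddCircle)) hm
    (Eventually.of_forall fun x => (measurePreserving_add_right volume (b • x + t.2)).map_eq)
  have h3 : (fun p : UnitAddCircle × UnitAddCircle => (p.1 + t.1, p.2 + (b • p.1 + t.2))) =
      fun z : T => lMap b z + t := by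
    funext z
    change (z.1 + t.1, z.2 + (b • z.1 + t.2)) = ((z.1, z.2 + b • z.1) : T) + t
    ext
    · rfl
    · change z.2 + (b • z.1 + t.2) = z.2 + b • z.1 + t.2
      abel
  rw [h3] at h2
  exact h2

lemma mp_u (a : ℕ) (t : T) : MeasurePreserving (fun z : T => uMap a z + t) volume volume := by
  have hs : MeasurePreserving (Prod.swap : T → T) volume volume := Measure.measurePreserving_swap
  have h := hs.comp ((mp_l a t.swap).comp hs)
  have h3 : (Prod.swap ∘ (fun z : T => lMap a z + t.swap) ∘ Prod.swap) =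
      fun z : T => uMap a z + t := by
    funext z
    rfl
  rw [h3] at h
  exact h

section comp
variable {M : Type*} [TopologicalSpace M]

/-- area of a subset -/
noncomputable def ar (D : M → T) (N : Set M) : ENNReal :=
  ∫⁻ y : T, ((N ∩ D ⁻¹' {y}).encard : ENNReal)

lemma ar_image {D : M → T} {N : Set M} (f : M ≃ₜ M) (u : T ≃ₜ T) (u' : T ≃+ T)
    (huu : ∀ z, u z = u' z) {t : T}
    (hmp : MeasurePreserving (fun z : T => u' z + t) volume volume)
    (h : ∀ x ∈ N, D (f x) = u' (D x) + t) : ar D (f '' N) = ar D N := by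
  unfold ar
  have he : MeasurableEmbedding (fun z : T => u' z + t) := by
    have : (fun z : T => u' z + t) = (u.trans (Homeomorph.addRight t)) := by
      funext z
      simp [huu]
    rw [this]
    exact (u.trans (Homeomorph.addRight t)).measurableEmbedding
  rw [← hmp.lintegral_comp_emb he]
  refine lintegral_congr fun z => ?_
  congr 1
  have h1 : f '' N ∩ D ⁻¹' {u' z + t} = f '' (N ∩ D ⁻¹' {z}) := by
    ext x
    constructor
    · rintro ⟨⟨w, hw, rfl⟩, hx⟩
      have h2 : D (f w) = u' z + t := hx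
      rw [h w hw] at h2
      exact ⟨w, ⟨hw, u'.injective (add_right_cancel h2)⟩, rfl⟩
    · rintro ⟨w, ⟨hw, hz⟩, rfl⟩
      refine ⟨⟨w, hw, rfl⟩, ?_⟩
      have hz' : D w = z := hz
      change D (f w) = u' z + t
      rw [h w hw, hz']
  rw [h1, f.injective.encard_image]

lemma sum_le (n : ℕ) (g : ℕ → T → ENNReal) :
    ∑ i ∈ Finset.range n, ∫⁻ y : T, g i y ≤ ∫⁻ y : T, ∑ i ∈ Finset.range n, g i y := by
  induction n with
  | zero => simp
  | succ n ih =>
    simp only [Finset.sum_range_succ]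
    exact (add_le_add ih le_rfl).trans (le_lintegral_add _ _)

omit [TopologicalSpace M] in
lemma ar_disjoint {D : M → T} {N : Set M} {S : ℕ → Set M} (hS : ∀ i, S i ⊆ N)
    (hdis : Pairwise (Function.onFun Disjoint S)) {α : ENNReal} (hα : ∀ i, ar D (S i) = α)
    (n : ℕ) : n * α ≤ ar D N := by
  have h1 : (n : ENNReal) * α = ∑ i ∈ Finset.range n, ar D (S i) := by
    simp [hα]
  rw [h1]
  unfold ar
  refine (sum_le n _).trans (lintegral_mono fun y => ?_)
  have h2 : (⋃ i ∈ Finset.range n, (S i ∩ D ⁻¹' {y})).encard =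
      ∑ i ∈ Finset.range n, (S i ∩ D ⁻¹' {y}).encard := by
    induction n with
    | zero => simp
    | succ n ih =>
      rw [Finset.sum_range_succ, Finset.range_add_one, Finset.set_biUnion_insert, union_comm,
        encard_union_eq, ih (by simp [hα])]
      rw [Set.disjoint_iUnion₂_left]
      intro i hi
      exact (hdis (by
        have := Finset.mem_range.1 hi
        omega)).mono inter_subset_left inter_subset_left
  have h3 : (⋃ i ∈ Finset.range n, (S i ∩ D ⁻¹' {y})).encard ≤ (N ∩ D ⁻¹' {y}).encard := by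
    refine encard_le_encard ?_
    refine iUnion₂_subset fun i _ => inter_subset_inter_left _ (hS i)
  rw [h2] at h3
  have h4 := ENat.toENNReal_le.2 h3
  refine le_trans (le_of_eq ?_) h4
  exact (map_sum ENat.toENNRealRingHom _ _).symm

/-- iterates -/
def iter (f : M ≃ₜ M) : ℕ → M ≃ₜ M
  | 0 => Homeomorph.refl M
  | k + 1 => (iter f k).trans f

lemma iter_add (f : M ≃ₜ M) (i k : ℕ) (x : M) : iter f (i + k) x = iter f i (iter f k x) := by
  induction i with
  | zero => simp [iter]
  | succ i ih => rw [Nat.succ_add]; change f (iter f (i + k) x) = f (iter f i (iter f k x)); rw [ih]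

lemma iter_image {f : M ≃ₜ M} {N : Set M} (h : f '' N = N) (k : ℕ) : iter f k '' N = N := by
  induction k with
  | zero => simp [iter]
  | succ k ih =>
    have : iter f (k + 1) '' N = f '' (iter f k '' N) := by
      rw [image_image]; rfl
    rw [this, ih, h]

/-- affine with linear part `u` in the charts of `𝒜` -/
def Aff (𝒜 : Set (OpenPartialHomeomorph M T)) (u : T → T) (f : M ≃ₜ M) : Prop :=
  ∀ φ ∈ 𝒜, ∀ ψ ∈ 𝒜, ∀ x ∈ φ.source, f x ∈ ψ.source → ∃ c, ∀ᶠ y in 𝓝 x, ψ (f y) = u (φ y) + c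

lemma aff_refl {𝒜 : Set (OpenPartialHomeomorph M T)}
    (htr : ∀ φ ∈ 𝒜, ∀ ψ ∈ 𝒜, ∀ x ∈ φ.source, x ∈ ψ.source → ∃ c, ∀ᶠ y in 𝓝 x, ψ y = φ y + c)
    {u : T → T} (hu : ∀ z, u z = z) : Aff 𝒜 u (Homeomorph.refl M) := by
  intro φ hφ ψ hψ x hx hfx
  obtain ⟨c, hc⟩ := htr φ hφ ψ hψ x hx hfx
  refine ⟨c, ?_⟩
  filter_upwards [hc] with y hy
  rw [hu]; exact hy

lemma aff_trans {𝒜 : Set (OpenPartialHomeomorph M T)} (hcov : ∀ x, ∃ φ ∈ 𝒜, x ∈ φ.source)
    {u v : T ≃+ T} {w : T → T} {f g : M ≃ₜ M} (hf : Aff 𝒜 u f) (hg : Aff 𝒜 v g)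
    (hw : ∀ z, w z = v (u z)) : Aff 𝒜 w (f.trans g) := by
  intro φ hφ ψ hψ x hx hfx
  obtain ⟨χ, hχ, hχx⟩ := hcov (f x)
  obtain ⟨c1, hc1⟩ := hf φ hφ χ hχ x hx hχx
  obtain ⟨c2, hc2⟩ := hg χ hχ ψ hψ (f x) hχx hfx
  refine ⟨v c1 + c2, ?_⟩
  filter_upwards [hc1, (f.continuous.tendsto x).eventually hc2] with y h1 h2
  change ψ (g (f y)) = _
  rw [h2, h1, hw, map_add, add_assoc]

lemma aff_iter_u {𝒜 : Set (OpenPartialHomeomorph M T)} (hcov : ∀ x, ∃ φ ∈ 𝒜, x ∈ φ.source)
    (htr : ∀ φ ∈ 𝒜, ∀ ψ ∈ 𝒜, ∀ x ∈ φ.source, x ∈ ψ.source → ∃ c, ∀ᶠ y in 𝓝 x, ψ y = φ y + c)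
    {a : ℕ} {f : M ≃ₜ M} (hf : Aff 𝒜 (uMap a) f) (k : ℕ) : Aff 𝒜 (uMap (k * a)) (iter f k) := by
  induction k with
  | zero =>
    refine aff_refl htr fun z => ?_
    change ((z.1 + (0 * a) • z.2, z.2) : T) = z
    simp
  | succ k ih =>
    refine aff_trans hcov ih hf fun z => ?_
    change ((z.1 + ((k + 1) * a) • z.2, z.2) : T) = (z.1 + (k * a) • z.2 + a • z.2, z.2)
    rw [add_mul, one_mul, add_nsmul, add_assoc]

lemma aff_iter_l {𝒜 : Set (OpenPartialHomeomorph M T)} (hcov : ∀ x, ∃ φ ∈ 𝒜, x ∈ φ.source)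
    (htr : ∀ φ ∈ 𝒜, ∀ ψ ∈ 𝒜, ∀ x ∈ φ.source, x ∈ ψ.source → ∃ c, ∀ᶠ y in 𝓝 x, ψ y = φ y + c)
    {b : ℕ} {f : M ≃ₜ M} (hf : Aff 𝒜 (lMap b) f) (k : ℕ) : Aff 𝒜 (lMap (k * b)) (iter f k) := by
  induction k with
  | zero =>
    refine aff_refl htr fun z => ?_
    change ((z.1, z.2 + (0 * b) • z.1) : T) = z
    simp
  | succ k ih =>
    refine aff_trans hcov ih hf fun z => ?_
    change ((z.1, z.2 + ((k + 1) * b) • z.1) : T) = (z.1, z.2 + (k * b) • z.1 + b • z.1)
    rw [add_mul, one_mul, add_nsmul, add_assoc]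

/-- the translation part is constant on connected open subsets -/
lemma const_on' {N N0 : Set M} (hN0c : IsPreconnected N0) (hsub : N0 ⊆ N)
    {𝒜 : Set (OpenPartialHomeomorph M T)} (hcov : ∀ x, ∃ φ ∈ 𝒜, x ∈ φ.source) {D : M → T}
    (hD : CompatOn N 𝒜 D) (u : T ≃+ T) (f : M ≃ₜ M) (hfN : ∀ x ∈ N, f x ∈ N)
    (hf : Aff 𝒜 u f) : ∃ t : T, ∀ x ∈ N0, D (f x) = u (D x) + t := by
  rcases N0.eq_empty_or_nonempty with rfl | ⟨x0, hx0⟩
  · exact ⟨0, fun x hx => absurd hx (notMem_empty x)⟩
  have : PreconnectedSpace N0 := isPreconnected_iff_preconnectedSpace.1 hN0c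
  have hl : IsLocallyConstant (fun x : N0 => D (f x) - u (D x)) := by
    rw [IsLocallyConstant.iff_eventually_eq]
    intro x
    obtain ⟨φ, hφ, hxφ⟩ := hcov x
    obtain ⟨ψ, hψ, hxψ⟩ := hcov (f x)
    obtain ⟨c, hc⟩ := hf φ hφ ψ hψ x hxφ hxψ
    obtain ⟨c1, hc1⟩ := hD (f x) (hfN x (hsub x.2)) ψ hψ hxψ
    obtain ⟨c2, hc2⟩ := hD x (hsub x.2) φ hφ hxφ
    have hc1' := (f.continuous.tendsto (x : M)).eventually hc1
    have key : ∀ᶠ y in 𝓝 (x : M), D (f y) - u (D y) = c + c1 - u c2 := by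
      filter_upwards [hc, hc1', hc2] with y h1 h2 h3
      rw [h2, h1, h3, map_add]; abel
    have h0 := key.self_of_nhds
    have key' : ∀ᶠ y : N0 in 𝓝 x, D (f y) - u (D y) = c + c1 - u c2 :=
      (continuous_subtype_val.tendsto x).eventually key
    filter_upwards [key'] with y hy
    rw [hy, h0]
  refine ⟨D (f x0) - u (D x0), fun x hx => ?_⟩
  have h1 := hl.apply_eq_of_preconnectedSpace ⟨x, hx⟩ ⟨x0, hx0⟩
  have h2 : D (f x) - u (D x) = D (f x0) - u (D x0) := h1
  rw [← h2, add_sub_cancel]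

/-- **A power of `f` preserves each component of finite total area.** -/
lemma exists_power [LocallyConnectedSpace M] {N : Set M} (hN : IsOpen N)
    {𝒜 : Set (OpenPartialHomeomorph M T)} (hcov : ∀ x, ∃ φ ∈ 𝒜, x ∈ φ.source) {D : M → T}
    (hD : CompatOn N 𝒜 D) (hfin : ar D N ≠ ⊤) (u : T ≃ₜ T) (u' : T ≃+ T)
    (huu : ∀ z, u z = u' z) (hmp : ∀ t, MeasurePreserving (fun z : T => u' z + t) volume volume)
    (f : M ≃ₜ M) (hfN : f '' N = N) (hf : Aff 𝒜 u' f) {x0 : M} (hx0 : x0 ∈ N) :
    ∃ k : ℕ, 1 ≤ k ∧ iter f k '' connectedComponentIn N x0 = connectedComponentIn N x0 := by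
  set S : ℕ → Set M := fun i => iter f i '' connectedComponentIn N x0 with hS
  have hSsub : ∀ i, S i ⊆ N := by
    intro i
    have h1 := image_mono (f := iter f i) (connectedComponentIn_subset N x0)
    rwa [iter_image hfN i] at h1
  have hSc : ∀ i, IsPreconnected (S i) := fun i =>
    isPreconnected_connectedComponentIn.image _ (iter f i).continuous.continuousOn
  have hfN' : ∀ x ∈ N, f x ∈ N := fun x hx => by rw [← hfN]; exact ⟨x, hx, rfl⟩
  have hSS : ∀ i, S (i + 1) = f '' S i := by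
    intro i
    rw [hS]
    change (fun x => f (iter f i x)) '' _ = f '' (iter f i '' _)
    rw [image_image]
  have hcomp : ∀ i, S i = connectedComponentIn N (iter f i x0) := by
    intro i
    have h := (iter f i).image_connectedComponentIn hx0
    rw [iter_image hfN i] at h
    exact h
  have har : ∀ i, ar D (S i) = ar D (S 0) := by
    intro i
    induction i with
    | zero => rfl
    | succ i ih =>
      obtain ⟨t, ht⟩ := const_on' (hSc i) (hSsub i) hcov hD u' f hfN' hf
      rw [hSS, ar_image f u u' huu (hmp t) ht, ih]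
  have hmem : ∀ i, iter f i x0 ∈ N := fun i => by
    rw [← iter_image hfN i]; exact ⟨x0, hx0, rfl⟩
  have hopen0 : IsOpen (S 0) := by
    rw [hcomp 0]; exact hN.connectedComponentIn
  have hne0 : (S 0).Nonempty := by
    rw [hcomp 0]; exact ⟨_, mem_connectedComponentIn (hmem 0)⟩
  have hpos : ar D (S 0) ≠ 0 := by
    have hloc : IsLocalHomeomorph (fun x : S 0 => D x) :=
      isLocalHomeomorph_sub hopen0 hcov (fun x hx => hD x (hSsub 0 hx))
    have hO : IsOpen (range fun x : S 0 => D x) := hloc.isOpenMap.isOpen_range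
    have hOne : (range fun x : S 0 => D x).Nonempty := by
      obtain ⟨x, hx⟩ := hne0
      exact ⟨_, ⟨x, hx⟩, rfl⟩
    have h1 : (volume : Measure T) (range fun x : S 0 => D x) ≤ ar D (S 0) := by
      unfold ar
      rw [← lintegral_indicator_one hO.measurableSet]
      refine lintegral_mono fun y => ?_
      by_cases hy : y ∈ range fun x : S 0 => D x
      · rw [indicator_of_mem hy]
        obtain ⟨x, hx⟩ := hy
        have h2 : (1 : ℕ∞) ≤ (S 0 ∩ D ⁻¹' {y}).encard :=
          one_le_encard_iff_nonempty.2 ⟨x, x.2, hx⟩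
        have h3 := ENat.toENNReal_le.2 h2
        simpa using h3
      · rw [indicator_of_notMem hy]; exact zero_le
    exact (lt_of_lt_of_le (hO.measure_pos volume hOne) h1).ne'
  have hnot : ¬ Pairwise (Function.onFun Disjoint S) := by
    intro hdis
    apply hfin
    rw [eq_top_iff]
    have h1 := ar_disjoint hSsub hdis har
    have h2 : Tendsto (fun n : ℕ => (n : ENNReal) * ar D (S 0)) atTop (𝓝 (⊤ * ar D (S 0))) :=
      ENNReal.Tendsto.mul_const ENNReal.tendsto_nat_nhds_top (Or.inl ENNReal.top_ne_zero)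
    rw [ENNReal.top_mul hpos] at h2
    exact le_of_tendsto' h2 h1
  have hex : ∃ i j, i < j ∧ S i = S j := by
    simp only [Pairwise, Function.onFun] at hnot
    push Not at hnot
    obtain ⟨i, j, hij, hd⟩ := hnot
    rw [Set.not_disjoint_iff] at hd
    obtain ⟨z, hz1, hz2⟩ := hd
    rw [hcomp] at hz1 hz2
    have h1 : S i = S j := by
      rw [hcomp, hcomp, connectedComponentIn_eq hz1, connectedComponentIn_eq hz2]
    rcases Nat.lt_or_gt_of_ne hij with h | h
    · exact ⟨i, j, h, h1⟩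
    · exact ⟨j, i, h, h1.symm⟩
  obtain ⟨i, j, hij, h⟩ := hex
  refine ⟨j - i, by omega, ?_⟩
  have h2 : S j = iter f i '' (iter f (j - i) '' connectedComponentIn N x0) := by
    rw [hS, image_image]
    change iter f j '' _ = _
    congr 1
    funext x
    rw [← iter_add]
    congr 2
    omega
  rw [h2] at h
  exact ((iter f i).injective.image_injective h).symm

end comp

end Pool.Agent.H6.Veech
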