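import Pool.Agent.H6.Veech.Affine

/-! Fibres of a local homeomorphism. -/

open Set Filter Topology MeasureTheory

namespace Pool.Agent.H6.Veech

section fibres
variable {M X : Type*} [TopologicalSpace M] [T2Space M] [TopologicalSpace X]

/-- finitely many points of a fibre have disjoint neighbourhoods whose images contain a common
neighbourhood of the base point, over which each of them carries a point -/
lemma exists_common {D : M → X} (hD : IsLocalHomeomorph D) {y : X} (S : Finset M)
    (hS : ∀ x ∈ S, D x = y) (W : Set M) (hW : IsOpen W) (hSW : ∀ x ∈ S, x ∈ W) :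
    ∃ V : Set X, IsOpen V ∧ y ∈ V ∧ ∀ z ∈ V, ∃ S' : Finset M, S'.card = S.card ∧
      (∀ x ∈ S', D x = z) ∧ ∀ x ∈ S', x ∈ W := by
  classical
  obtain ⟨U, hU, hdis⟩ := S.finite_toSet.t2_separation
  refine ⟨⋂ x ∈ S, D '' (U x ∩ W), ?_, ?_, ?_⟩
  · exact isOpen_biInter_finset fun x _ => hD.isOpenMap _ ((hU x).2.inter hW)
  · simp only [mem_iInter]
    exact fun x hx => ⟨x, ⟨(hU x).1, hSW x hx⟩, hS x hx⟩
  · intro z hz
    simp only [mem_iInter] at hz
    choose! g hg hgz using hz
    refine ⟨S.image g, ?_, ?_, ?_⟩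
    · refine Finset.card_image_of_injOn ?_
      intro x hx x' hx' h
      by_contra hne
      have := hdis hx hx' hne
      exact (Set.disjoint_left.1 this) (hg x hx).1 (h ▸ (hg x' hx').1)
    · intro x hx
      obtain ⟨x', hx', rfl⟩ := Finset.mem_image.1 hx
      exact hgz x' hx'
    · intro x hx
      obtain ⟨x', hx', rfl⟩ := Finset.mem_image.1 hx
      exact (hg x' hx').2

lemma isOpen_ge {D : M → X} (hD : IsLocalHomeomorph D) (k : ℕ) :
    IsOpen {y : X | (k : ℕ∞) ≤ (D ⁻¹' {y}).encard} := by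
  rw [isOpen_iff_mem_nhds]
  intro y hy
  obtain ⟨S, hS, hSk⟩ := exists_subset_encard_eq hy
  have hfin : S.Finite := finite_of_encard_eq_coe hSk
  obtain ⟨V, hV, hyV, hV'⟩ := exists_common hD hfin.toFinset (y := y)
    (fun x hx => hS (hfin.mem_toFinset.1 hx)) univ isOpen_univ (fun _ _ => mem_univ _)
  refine mem_of_superset (hV.mem_nhds hyV) fun z hz => ?_
  obtain ⟨S', hc, hz', -⟩ := hV' z hz
  have h1 : (k : ℕ∞) = ((S' : Set M)).encard := by
    rw [encard_coe_eq_coe_finsetCard, hc, ← hSk, hfin.encard_eq_coe_toFinset_card]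
  change (k : ℕ∞) ≤ (D ⁻¹' {z}).encard
  rw [h1]
  exact encard_le_encard fun x hx => hz' x hx

/-- constant finite fibres: a covering -/
lemma covering_of_const {D : M → X} (hD : IsLocalHomeomorph D) {s : Set X} (hs : IsOpen s) {d : ℕ}
    (hd : ∀ y ∈ s, (D ⁻¹' {y}).encard = d) : IsCoveringMapOn D s := by
  have hcont : Continuous D := hD.continuous
  have hfs : IsOpen (D ⁻¹' s) := hs.preimage hcont
  refine IsCoveringMapOn.of_isCoveringMap_restrictPreimage s hs hfs ?_
  rw [isCoveringMap_iff_isCoveringMapOn_univ]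
  have hfib : ∀ y ∈ s, (D ⁻¹' {y}).Finite := fun y hy => finite_of_encard_eq_coe (hd y hy)
  have hloc : IsLocalHomeomorph (s.restrictPreimage D) := by
    refine IsLocalHomeomorph.of_comp (g := (Subtype.val : s → X)) ?_
      hs.isOpenEmbedding_subtypeVal.isLocalHomeomorph (hcont.restrictPreimage)
    change IsLocalHomeomorph (D ∘ (Subtype.val : D ⁻¹' s → M))
    exact hD.comp hfs.isOpenEmbedding_subtypeVal.isLocalHomeomorph
  refine IsClosedMap.isCoveringMapOn_of_isLocalHomeomorphOn ?_ ?_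
    (by rw [preimage_univ]; exact isLocalHomeomorph_iff_isLocalHomeomorphOn_univ.1 hloc)
  · intro Z hZ
    rw [← isOpen_compl_iff, isOpen_iff_mem_nhds]
    rintro ⟨y, hys⟩ hy
    have hW : IsOpen (Subtype.val '' Zᶜ : Set M) :=
      hfs.isOpenMap_subtype_val _ hZ.isOpen_compl
    obtain ⟨V, hV, hyV, hV'⟩ := exists_common hD (hfib y hys).toFinset (y := y)
      (fun x hx => (hfib y hys).mem_toFinset.1 hx) _ hW (fun x hx => by
        have hx' : D x = y := (hfib y hys).mem_toFinset.1 hx
        refine ⟨⟨x, by rw [mem_preimage, hx']; exact hys⟩, fun hxZ => hy ?_, rfl⟩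
        exact ⟨_, hxZ, Subtype.ext hx'⟩)
    refine mem_of_superset ((hV.preimage continuous_subtype_val).mem_nhds hyV) ?_
    rintro ⟨z, hzs⟩ hz ⟨⟨x, hxs⟩, hxZ, hxz⟩
    have hDx : D x = z := congrArg Subtype.val hxz
    obtain ⟨S', hc, hz', hW'⟩ := hV' z hz
    have hsub : (S' : Set M) ⊆ D ⁻¹' {z} := fun w hw => hz' w hw
    have heq : (S' : Set M) = D ⁻¹' {z} := by
      refine S'.finite_toSet.eq_of_subset_of_encard_le hsub ?_
      rw [encard_coe_eq_coe_finsetCard, hc, ← (hfib y hys).encard_eq_coe_toFinset_card, hd y hys,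
        hd z hzs]
    have hxS : x ∈ (S' : Set M) := by rw [heq]; exact hDx
    obtain ⟨e, he, hex⟩ := hW' x hxS
    exact he (by rw [Subtype.ext hex (a2 := ⟨x, hxs⟩)]; exact hxZ)
  · rintro ⟨y, hys⟩ -
    refine ((hfib y hys).preimage (f := (Subtype.val : D ⁻¹' s → M))
      Subtype.val_injective.injOn).subset ?_
    intro e he
    exact congrArg Subtype.val he

end fibres

end Pool.Agent.H6.Veech
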