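import Mathlib

/-! Closed proper subgroups of `ℝ²` containing the periods: reduction to a lattice. -/

open Set Filter Topology

namespace Pool.Agent.H6.Veech.Dense

/-- the subgroup `αℤ × βℤ` -/
def box (α β : ℝ) : AddSubgroup (ℝ × ℝ) :=
  (AddSubgroup.zmultiples α).prod (AddSubgroup.zmultiples β)

lemma mem_box {α β : ℝ} {z : ℝ × ℝ} :
    z ∈ box α β ↔ ∃ m n : ℤ, z.1 = m * α ∧ z.2 = n * β := by
  unfold box
  rw [AddSubgroup.mem_prod, AddSubgroup.mem_zmultiples_iff, AddSubgroup.mem_zmultiples_iff]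
  simp only [zsmul_eq_mul]
  constructor
  · rintro ⟨⟨m, hm⟩, n, hn⟩
    exact ⟨m, n, hm.symm, hn.symm⟩
  · rintro ⟨m, n, hm, hn⟩
    exact ⟨⟨m, hm.symm⟩, n, hn.symm⟩

lemma closed_cyclic (L : AddSubgroup ℝ) (hL : IsClosed (L : Set ℝ)) :
    L = ⊤ ∨ ∃ p : ℝ, ∀ x, x ∈ L → ∃ m : ℤ, x = m * p := by
  rcases AddSubgroup.dense_or_cyclic L with h | ⟨p, hp⟩
  · left
    have := h.closure_eq
    rw [hL.closure_eq] at this
    exact SetLike.coe_injective (by simpa using this)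
  · right
    refine ⟨p, fun x hx => ?_⟩
    rw [hp, AddSubgroup.mem_closure_singleton] at hx
    obtain ⟨m, hm⟩ := hx
    exact ⟨m, by rw [← hm, zsmul_eq_mul]⟩

theorem algebra (P : AddSubgroup (ℝ × ℝ) → Prop)
    (hmono : ∀ H K : AddSubgroup (ℝ × ℝ), H ≤ K → P H → P K) (a b : ℕ) (ha : 1 ≤ a) (hb : 1 ≤ b)
    (step : ∀ H K : AddSubgroup (ℝ × ℝ), P H →
      (∀ h ∈ H, ((a : ℝ) * h.2, (0 : ℝ)) ∈ H → ((0 : ℝ), (b : ℝ) * h.1) ∈ H → h ∈ K) → P K)
    (H : AddSubgroup (ℝ × ℝ)) (hH : IsClosed (H : Set (ℝ × ℝ))) (hne : H ≠ ⊤) (hP : P H) :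
    ∃ r : ℝ, 0 < r ∧ P (box r r) := by
  have ha0 : (a : ℝ) ≠ 0 := by
    have : a ≠ 0 := by omega
    exact_mod_cast this
  have hb0 : (b : ℝ) ≠ 0 := by
    have : b ≠ 0 := by omega
    exact_mod_cast this
  -- it is enough to reach `box t t` for some `t`
  have key : (∃ t : ℝ, P (box t t)) → ∃ r : ℝ, 0 < r ∧ P (box r r) := by
    rintro ⟨t, ht⟩
    by_cases h0 : t = 0
    · refine ⟨1, one_pos, hmono _ _ ?_ ht⟩
      intro z hz
      rw [mem_box] at hz ⊢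
      obtain ⟨m, n, hm, hn⟩ := hz
      subst h0
      exact ⟨0, 0, by simpa using hm, by simpa using hn⟩
    · refine ⟨|t|, abs_pos.2 h0, hmono _ _ ?_ ht⟩
      intro z hz
      rw [mem_box] at hz ⊢
      obtain ⟨m, n, hm, hn⟩ := hz
      rcases abs_choice t with h | h
      · rw [h]; exact ⟨m, n, hm, hn⟩
      · rw [h]; exact ⟨-m, -n, by rw [hm]; push_cast; ring, by rw [hn]; push_cast; ring⟩
  apply key
  -- the two axis subgroups
  set L1 : AddSubgroup ℝ := H.comap (AddMonoidHom.inl ℝ ℝ) with hL1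
  set L2 : AddSubgroup ℝ := H.comap (AddMonoidHom.inr ℝ ℝ) with hL2
  have m1 : ∀ x, x ∈ L1 ↔ (x, (0 : ℝ)) ∈ H := fun x => by
    rw [hL1, AddSubgroup.mem_comap, AddMonoidHom.inl_apply]
  have m2 : ∀ x, x ∈ L2 ↔ ((0 : ℝ), x) ∈ H := fun x => by
    rw [hL2, AddSubgroup.mem_comap, AddMonoidHom.inr_apply]
  have c1 : IsClosed (L1 : Set ℝ) := by
    have : (L1 : Set ℝ) = (fun x : ℝ => (x, (0 : ℝ))) ⁻¹' (H : Set (ℝ × ℝ)) := by
      ext x; exact m1 x
    rw [this]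
    exact hH.preimage (by fun_prop)
  have c2 : IsClosed (L2 : Set ℝ) := by
    have : (L2 : Set ℝ) = (fun x : ℝ => ((0 : ℝ), x)) ⁻¹' (H : Set (ℝ × ℝ)) := by
      ext x; exact m2 x
    rw [this]
    exact hH.preimage (by fun_prop)
  -- the case of a product of cyclic groups
  have boxes : ∀ α β : ℝ, P (box α β) → ∃ t : ℝ, P (box t t) := by
    intro α β hP
    by_cases hc : ∃ t : ℝ, ∃ m n : ℤ, α = m * t ∧ β = n * t
    · obtain ⟨t, m, n, hm, hn⟩ := hc
      refine ⟨t, hmono _ _ ?_ hP⟩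
      intro z hz
      rw [mem_box] at hz ⊢
      obtain ⟨k, l, hk, hl⟩ := hz
      exact ⟨k * m, l * n, by rw [hk, hm]; push_cast; ring, by rw [hl, hn]; push_cast; ring⟩
    · refine ⟨0, step _ _ hP ?_⟩
      intro h hh h1 h2
      rw [mem_box] at hh h1 h2 ⊢
      obtain ⟨m, n, hm, hn⟩ := hh
      obtain ⟨m', -, hm', -⟩ := h1
      obtain ⟨-, n', -, hn'⟩ := h2
      simp only at hm' hn'
      refine ⟨0, 0, ?_, ?_⟩
      · -- `h.1 = 0`
        by_contra hne0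
        apply hc
        have hbm : (b : ℝ) * m ≠ 0 := by
          refine mul_ne_zero hb0 ?_
          rintro h0
          apply hne0
          rw [hm, h0]; simp
        have hα : α ≠ 0 := by
          rintro rfl
          apply hne0
          rw [hm]; simp
        rw [hm] at hn'
        have hm0 : (m : ℝ) ≠ 0 := right_ne_zero_of_mul hbm
        refine ⟨β / (b * m), n', b * m, ?_, ?_⟩
        · rw [← mul_div_assoc, eq_div_iff hbm]
          linarith
        · push_cast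
          field_simp
      · by_contra hne0
        apply hc
        have han : (a : ℝ) * n ≠ 0 := by
          refine mul_ne_zero ha0 ?_
          rintro h0
          apply hne0
          rw [hn, h0]; simp
        rw [hn] at hm'
        have hn0 : (n : ℝ) ≠ 0 := right_ne_zero_of_mul han
        refine ⟨α / (a * n), a * n, m', ?_, ?_⟩
        · push_cast
          field_simp
        · rw [← mul_div_assoc, eq_div_iff han]
          linarith
  rcases closed_cyclic L1 c1 with h1 | ⟨p, hp⟩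
  · rcases closed_cyclic L2 c2 with h2 | ⟨q, hq⟩
    · exfalso
      apply hne
      rw [AddSubgroup.eq_top_iff']
      intro z
      have e1 : (z.1, (0 : ℝ)) ∈ H := (m1 _).1 (by rw [h1]; exact AddSubgroup.mem_top _)
      have e2 : ((0 : ℝ), z.2) ∈ H := (m2 _).1 (by rw [h2]; exact AddSubgroup.mem_top _)
      have := H.add_mem e1 e2
      simpa using this
    · -- first `(q/b)ℤ × ℝ`
      have s1 : P ((AddSubgroup.zmultiples (q / b)).prod ⊤) := by
        refine step _ _ hP ?_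
        intro h _ _ h2
        rw [← m2] at h2
        obtain ⟨m, hm⟩ := hq _ h2
        rw [AddSubgroup.mem_prod]
        refine ⟨?_, AddSubgroup.mem_top _⟩
        rw [AddSubgroup.mem_zmultiples_iff]
        refine ⟨m, ?_⟩
        rw [zsmul_eq_mul]
        field_simp
        linarith
      refine ⟨q / (a * b), step _ _ s1 ?_⟩
      intro h hh hh1 _
      rw [AddSubgroup.mem_prod] at hh hh1
      obtain ⟨k, hk⟩ := AddSubgroup.mem_zmultiples_iff.1 hh.1
      obtain ⟨l, hl⟩ := AddSubgroup.mem_zmultiples_iff.1 hh1.1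
      rw [zsmul_eq_mul] at hk hl
      simp only at hl
      rw [mem_box]
      refine ⟨k * a, l, ?_, ?_⟩
      · rw [← hk]; push_cast; field_simp
      · field_simp
        field_simp at hl
        linarith
  · rcases closed_cyclic L2 c2 with h2 | ⟨q, hq⟩
    · have s1 : P ((⊤ : AddSubgroup ℝ).prod (AddSubgroup.zmultiples (p / a))) := by
        refine step _ _ hP ?_
        intro h _ h1 _
        rw [← m1] at h1
        obtain ⟨m, hm⟩ := hp _ h1
        rw [AddSubgroup.mem_prod]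
        refine ⟨AddSubgroup.mem_top _, ?_⟩
        rw [AddSubgroup.mem_zmultiples_iff]
        refine ⟨m, ?_⟩
        rw [zsmul_eq_mul]
        field_simp
        linarith
      refine ⟨p / (a * b), step _ _ s1 ?_⟩
      intro h hh _ hh2
      rw [AddSubgroup.mem_prod] at hh hh2
      obtain ⟨k, hk⟩ := AddSubgroup.mem_zmultiples_iff.1 hh.2
      obtain ⟨l, hl⟩ := AddSubgroup.mem_zmultiples_iff.1 hh2.2
      rw [zsmul_eq_mul] at hk hl
      simp only at hl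
      rw [mem_box]
      refine ⟨l, k * b, ?_, ?_⟩
      · field_simp
        field_simp at hl
        linarith
      · rw [← hk]; push_cast; field_simp
    · refine boxes (q / b) (p / a) (step _ _ hP ?_)
      intro h _ h1 h2
      rw [← m1] at h1
      rw [← m2] at h2
      obtain ⟨m, hm⟩ := hp _ h1
      obtain ⟨n, hn⟩ := hq _ h2
      rw [mem_box]
      refine ⟨n, m, ?_, ?_⟩
      · field_simp; linarith
      · field_simp; linarith

variable {M : Type*} [TopologicalSpace M]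

/-- the periods of `N` lie in `H` -/
def Per (𝒜 : Set (OpenPartialHomeomorph M (ℝ × ℝ))) (N : Set M) (H : AddSubgroup (ℝ × ℝ)) :
    Prop :=
  ∃ u : M → ℝ × ℝ, ∀ x ∈ N, ∀ φ ∈ 𝒜, x ∈ φ.source → ∃ c, ∀ᶠ y in 𝓝 x, u y - φ y - c ∈ H

lemma Per.mono {𝒜 : Set (OpenPartialHomeomorph M (ℝ × ℝ))} {N : Set M}
    {H K : AddSubgroup (ℝ × ℝ)} (h : H ≤ K) (hP : Per 𝒜 N H) : Per 𝒜 N K := by
  obtain ⟨u, hu⟩ := hP
  refine ⟨u, fun x hx φ hφ hxφ => ?_⟩
  obtain ⟨c, hc⟩ := hu x hx φ hφ hxφ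
  exact ⟨c, hc.mono fun y hy => h hy⟩

lemma Per.comap {𝒜 : Set (OpenPartialHomeomorph M (ℝ × ℝ))}
    (hcov : ∀ x, ∃ φ ∈ 𝒜, x ∈ φ.source) {N : Set M}
    {H : AddSubgroup (ℝ × ℝ)} (A : (ℝ × ℝ) ≃+ (ℝ × ℝ)) (f : M ≃ₜ M) (hfN : ∀ x ∈ N, f x ∈ N)
    (hf : ∀ φ ∈ 𝒜, ∀ ψ ∈ 𝒜, ∀ x, x ∈ φ.source → f x ∈ ψ.source →
      ∃ c, ∀ᶠ y in 𝓝 x, ψ (f y) = A (φ y) + c)
    (hP : Per 𝒜 N H) : Per 𝒜 N (H.comap A.toAddMonoidHom) := by
  obtain ⟨u, hu⟩ := hP
  refine ⟨fun x => A.symm (u (f x)), fun x hx φ hφ hxφ => ?_⟩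
  obtain ⟨ψ, hψ, hxψ⟩ := hcov (f x)
  obtain ⟨c, hc⟩ := hu (f x) (hfN x hx) ψ hψ hxψ
  obtain ⟨c', hc'⟩ := hf φ hφ ψ hψ x hxφ hxψ
  refine ⟨A.symm (c + c'), ?_⟩
  filter_upwards [f.continuous.continuousAt.eventually hc, hc'] with y hy hy'
  rw [AddSubgroup.mem_comap]
  have : A.toAddMonoidHom (A.symm (u (f y)) - φ y - A.symm (c + c')) = u (f y) - ψ (f y) - c := by
    rw [hy']
    simp only [map_sub, AddEquiv.coe_toAddMonoidHom, AddEquiv.apply_symm_apply]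
    abel
  rw [this]
  exact hy

lemma Per.inf {𝒜 : Set (OpenPartialHomeomorph M (ℝ × ℝ))}
    (hcov : ∀ x, ∃ φ ∈ 𝒜, x ∈ φ.source) {N : Set M} (hN : IsOpen N) (hNc : IsPreconnected N)
    {H K : AddSubgroup (ℝ × ℝ)} (hH : Per 𝒜 N H) (hK : Per 𝒜 N K) : Per 𝒜 N (H ⊓ K) := by
  classical
  obtain ⟨u, hu⟩ := hH
  obtain ⟨v, hv⟩ := hK
  rcases N.eq_empty_or_nonempty with hNe | ⟨x0, hx0⟩
  · refine ⟨u, fun x hx => ?_⟩
    rw [hNe] at hx
    exact absurd hx (notMem_empty x)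
  have hδ : ∀ y ∈ N, (u y - v y) - (u x0 - v x0) ∈ H ⊔ K := by
    intro y hy
    refine hNc.induction₂' (fun p q => (u q - v q) - (u p - v p) ∈ H ⊔ K) ?_ ?_ hx0 hy
    · intro x hx
      obtain ⟨φ, hφ, hxφ⟩ := hcov x
      obtain ⟨c, hc⟩ := hu x hx φ hφ hxφ
      obtain ⟨d, hd⟩ := hv x hx φ hφ hxφ
      have hc0 := hc.self_of_nhds
      have hd0 := hd.self_of_nhds
      apply mem_nhdsWithin_of_mem_nhds
      filter_upwards [hc, hd] with y hy hy'
      have e : (u y - v y) - (u x - v x) ∈ H ⊔ K := by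
        have e1 : (u y - v y) - (u x - v x) =
            ((u y - φ y - c) - (u x - φ x - c)) + ((v x - φ x - d) - (v y - φ y - d)) := by abel
        rw [e1]
        exact AddSubgroup.add_mem _ (AddSubgroup.mem_sup_left (H.sub_mem hy hc0))
          (AddSubgroup.mem_sup_right (K.sub_mem hd0 hy'))
      refine ⟨e, ?_⟩
      have := AddSubgroup.neg_mem _ e
      rwa [neg_sub] at this
    · intro x y z _ _ _ h1 h2
      have := AddSubgroup.add_mem _ h2 h1
      rwa [sub_add_sub_cancel] at this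
  have hex : ∀ y, y ∈ N → ∃ h ∈ H, ∃ k ∈ K, h + k = (u y - v y) - (u x0 - v x0) := fun y hy =>
    AddSubgroup.mem_sup.1 (hδ y hy)
  choose h hh k hk hhk using hex
  refine ⟨fun y => if hy : y ∈ N then u y - h y hy else 0, fun x hx φ hφ hxφ => ?_⟩
  obtain ⟨c, hc⟩ := hu x hx φ hφ hxφ
  obtain ⟨d, hd⟩ := hv x hx φ hφ hxφ
  have hc0 := hc.self_of_nhds
  have hd0 := hd.self_of_nhds
  refine ⟨u x - h x hx - φ x, ?_⟩
  filter_upwards [hc, hd, hN.mem_nhds hx] with y hy hy' hyN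
  rw [dif_pos hyN]
  rw [AddSubgroup.mem_inf]
  constructor
  · have e : u y - h y hyN - φ y - (u x - h x hx - φ x) =
        ((u y - φ y - c) - (u x - φ x - c)) - (h y hyN - h x hx) := by abel
    rw [e]
    exact H.sub_mem (H.sub_mem hy hc0) (H.sub_mem (hh _ _) (hh _ _))
  · have e : u y - h y hyN - φ y - (u x - h x hx - φ x) =
        ((v y - φ y - d) - (v x - φ x - d)) + (k y hyN - k x hx) := by
      have e1 := hhk y hyN
      have e2 := hhk x hx
      have e3 : u y = h y hyN + k y hyN + (u x0 - v x0) + v y := by rw [e1]; abel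
      have e4 : u x = h x hx + k x hx + (u x0 - v x0) + v x := by rw [e2]; abel
      rw [e3, e4]
      abel
    rw [e]
    exact K.add_mem (K.sub_mem hy' hd0) (K.sub_mem (hk _ _) (hk _ _))

/-- the shear `(x, y) ↦ (x + a y, y)` -/
def shearU (a : ℝ) : (ℝ × ℝ) ≃+ (ℝ × ℝ) where
  toFun z := (z.1 + a * z.2, z.2)
  invFun z := (z.1 - a * z.2, z.2)
  left_inv z := by ext <;> simp
  right_inv z := by ext <;> simp
  map_add' z w := by ext <;> simp <;> ring

/-- the shear `(x, y) ↦ (x, y + b x)` -/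
def shearL (b : ℝ) : (ℝ × ℝ) ≃+ (ℝ × ℝ) where
  toFun z := (z.1, z.2 + b * z.1)
  invFun z := (z.1, z.2 - b * z.1)
  left_inv z := by ext <;> simp
  right_inv z := by ext <;> simp
  map_add' z w := by ext <;> simp <;> ring

theorem reduce {𝒜 : Set (OpenPartialHomeomorph M (ℝ × ℝ))}
    (hcov : ∀ x, ∃ φ ∈ 𝒜, x ∈ φ.source) {N : Set M} (hN : IsOpen N) (hNc : IsPreconnected N)
    {a b : ℕ} (ha : 1 ≤ a) (hb : 1 ≤ b) (f g : M ≃ₜ M) (hfN : ∀ x ∈ N, f x ∈ N)
    (hgN : ∀ x ∈ N, g x ∈ N)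
    (hf : ∀ φ ∈ 𝒜, ∀ ψ ∈ 𝒜, ∀ x, x ∈ φ.source → f x ∈ ψ.source →
      ∃ c, ∀ᶠ y in 𝓝 x, ψ (f y) = shearU a (φ y) + c)
    (hg : ∀ φ ∈ 𝒜, ∀ ψ ∈ 𝒜, ∀ x, x ∈ φ.source → g x ∈ ψ.source →
      ∃ c, ∀ᶠ y in 𝓝 x, ψ (g y) = shearL b (φ y) + c)
    {H : AddSubgroup (ℝ × ℝ)} (hH : IsClosed (H : Set (ℝ × ℝ))) (hne : H ≠ ⊤)
    (hP : Per 𝒜 N H) : ∃ r : ℝ, 0 < r ∧ Per 𝒜 N (box r r) := by
  refine algebra (Per 𝒜 N) (fun H K h hP => hP.mono h) a b ha hb ?_ H hH hne hP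
  intro H K hP hK
  have h1 : Per 𝒜 N (H ⊓ (H.comap (shearU a).toAddMonoidHom ⊓
      H.comap (shearL b).toAddMonoidHom)) :=
    hP.inf hcov hN hNc ((hP.comap hcov (shearU a) f hfN hf).inf hcov hN hNc
      (hP.comap hcov (shearL b) g hgN hg))
  refine h1.mono fun h hh => ?_
  obtain ⟨h0, h1, h2⟩ := hh
  have h1' : (h.1 + (a : ℝ) * h.2, h.2) ∈ H := h1
  have h2' : (h.1, h.2 + (b : ℝ) * h.1) ∈ H := h2
  refine hK h h0 ?_ ?_
  · have := H.sub_mem h1' h0
    have e : (h.1 + (a : ℝ) * h.2, h.2) - h = ((a : ℝ) * h.2, (0 : ℝ)) := by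
      ext <;> simp
    rwa [e] at this
  · have := H.sub_mem h2' h0
    have e : (h.1, h.2 + (b : ℝ) * h.1) - h = ((0 : ℝ), (b : ℝ) * h.1) := by
      ext <;> simp
    rwa [e] at this

end Pool.Agent.H6.Veech.Dense
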