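import Pool.Agent.H6.Veech.Cover

/-! Translation surfaces of finite area with periods in a lattice. -/

open Set Filter Topology MeasureTheory

namespace Pool.Agent.H6.Veech

lemma volume_univ_T : (volume : Measure T) univ = 1 := by
  rw [← univ_prod_univ, Measure.volume_eq_prod, Measure.prod_prod, UnitAddCircle.measure_univ,
    one_mul]

lemma volume_point (x : UnitAddCircle) : (volume : Measure UnitAddCircle) {x} = 0 := by
  have h := AddCircle.volume_closedBall (T := (1 : ℝ)) (x := x) 0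
  rw [Metric.closedBall_zero] at h
  rw [h]; simp

lemma volume_finite {F : Set T} (hF : F.Finite) : (volume : Measure T) F = 0 := by
  have : NullSingletonClass (volume : Measure T) := by
    refine ⟨fun z => ?_⟩
    obtain ⟨x, y⟩ := z
    rw [← singleton_prod_singleton, Measure.volume_eq_prod, Measure.prod_prod, volume_point,
      zero_mul]
  exact hF.measure_zero _

variable {M : Type*} [TopologicalSpace M]

lemma encard_fiber {D : M → T} (u : T ≃+ T) {t : T} (f : M ≃ₜ M)
    (hf : ∀ x, D (f x) = u (D x) + t) (z : T) :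
    (D ⁻¹' {u z + t}).encard = (D ⁻¹' {z}).encard := by
  have h : D ⁻¹' {u z + t} = f '' (D ⁻¹' {z}) := by
    ext x
    constructor
    · intro hx
      refine ⟨f.symm x, ?_, f.apply_symm_apply x⟩
      have h1 := hf (f.symm x)
      rw [f.apply_symm_apply] at h1
      have h2 : D x = u z + t := hx
      rw [h2] at h1
      exact (u.injective (add_right_cancel h1)).symm
    · rintro ⟨w, hw, rfl⟩
      have hw' : D w = z := hw
      change D (f w) = u z + t
      rw [hf, hw']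
  rw [h, f.injective.encard_image]

/-- the negation as an additive equivalence -/
lemma neg_fiber {D : M → T} {t : T} (f : M ≃ₜ M)
    (hf : ∀ x, D (f x) = -(D x) + t) (z : T) :
    (D ⁻¹' {-z + t}).encard = (D ⁻¹' {z}).encard :=
  encard_fiber (AddEquiv.neg T) f hf z

theorem main [T2Space M] [Nonempty M] {D : M → T} (hD : IsLocalHomeomorph D)
    (harea : ∫⁻ y : T, ((D ⁻¹' {y}).encard : ENNReal) ≠ ⊤)
    {a b : ℕ} (ha : 1 ≤ a) (hb : 1 ≤ b)
    (h0 : ∃ (f : M ≃ₜ M) (t : T), ∀ x, D (f x) = -(D x) + t)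
    (h1 : ∃ (f : M ≃ₜ M) (t : T), ∀ x, D (f x) = ((D x).1 + a • (D x).2, (D x).2) + t)
    (h2 : ∃ (f : M ≃ₜ M) (t : T), ∀ x, D (f x) = ((D x).1, (D x).2 + b • (D x).1) + t) :
    ∃ (d m : ℕ) (c : T) (F : Set T), 1 ≤ d ∧ 1 ≤ m ∧ (∀ y ∈ F, m • (y - c) = 0) ∧
      F.Finite ∧ (D ⁻¹' F).Finite ∧ (∀ y, (D ⁻¹' {y}).encard ≤ d) ∧
      (∀ y ∉ F, (D ⁻¹' {y}).encard = d) ∧ IsCoveringMapOn D Fᶜ ∧
      ∫⁻ y : T, ((D ⁻¹' {y}).encard : ENNReal) = d := by
  obtain ⟨f0, t0, h0⟩ := h0
  obtain ⟨f1, t1, h1⟩ := h1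
  obtain ⟨f2, t2, h2⟩ := h2
  set U : ℕ → Set T := fun k => {y | (k : ℕ∞) ≤ (D ⁻¹' {y}).encard} with hU
  have hUo : ∀ k, IsOpen (U k) := isOpen_ge hD
  have key : ∀ k, U k = ∅ ∨ ∃ c : T, ∃ m : ℕ, 1 ≤ m ∧ ∀ y ∈ (U k)ᶜ, m • (y - c) = 0 := by
    intro k
    have e0 : ∀ y, -y + t0 ∈ (U k)ᶜ ↔ y ∈ (U k)ᶜ := by
      intro y
      rw [mem_compl_iff, mem_compl_iff, hU]
      change ¬ ((k : ℕ∞) ≤ (D ⁻¹' {-y + t0}).encard) ↔ ¬ ((k : ℕ∞) ≤ (D ⁻¹' {y}).encard)
      rw [neg_fiber f0 h0]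
    have e1 : ∀ y, uMap a y + t1 ∈ (U k)ᶜ ↔ y ∈ (U k)ᶜ := by
      intro y
      rw [mem_compl_iff, mem_compl_iff, hU]
      change ¬ ((k : ℕ∞) ≤ (D ⁻¹' {uMap a y + t1}).encard) ↔ ¬ ((k : ℕ∞) ≤ (D ⁻¹' {y}).encard)
      rw [encard_fiber (uMap a) f1 h1]
    have e2 : ∀ y, lMap b y + t2 ∈ (U k)ᶜ ↔ y ∈ (U k)ᶜ := by
      intro y
      rw [mem_compl_iff, mem_compl_iff, hU]
      change ¬ ((k : ℕ∞) ≤ (D ⁻¹' {lMap b y + t2}).encard) ↔ ¬ ((k : ℕ∞) ≤ (D ⁻¹' {y}).encard)
      rw [encard_fiber (lMap b) f2 h2]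
    rcases closed_affine (hUo k).isClosed_compl ha hb e0 e1 e2 with h | h
    · left; exact compl_univ_iff.1 h
    · exact Or.inr h
  have hex : ∃ k, U k = ∅ := by
    by_contra hne
    push Not at hne
    apply harea
    rw [eq_top_iff]
    refine ENNReal.le_of_forall_nnreal_lt fun r _ => ?_
    obtain ⟨k, hk⟩ := exists_nat_ge r
    have hk1 : ((r : NNReal) : ENNReal) ≤ (k : ENNReal) := by exact_mod_cast hk
    refine hk1.trans ?_
    have hnull : (volume : Measure T) (U k)ᶜ = 0 := by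
      rcases key k with h | ⟨c, m, hm, h⟩
      · exact absurd h (hne k).ne_empty
      · exact volume_finite ((finite_torsion_translate c hm).subset h)
    have hfull : (volume : Measure T) (U k) = 1 := by
      have h3 := measure_add_measure_compl (μ := (volume : Measure T)) (hUo k).measurableSet
      rw [hnull, add_zero, volume_univ_T] at h3
      exact h3
    calc (k : ENNReal) = k * (volume : Measure T) (U k) := by rw [hfull, mul_one]
      _ = ∫⁻ y : T, (U k).indicator (fun _ => (k : ENNReal)) y :=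
        (lintegral_indicator_const (hUo k).measurableSet _).symm
      _ ≤ ∫⁻ y : T, ((D ⁻¹' {y}).encard : ENNReal) := by
        refine lintegral_mono fun y => ?_
        by_cases hy : y ∈ U k
        · rw [indicator_of_mem hy]
          have hy' : (k : ℕ∞) ≤ (D ⁻¹' {y}).encard := hy
          have h5 := ENat.toENNReal_le.2 hy'
          rw [ENat.toENNReal_coe] at h5
          exact h5
        · rw [indicator_of_notMem hy]; exact zero_le
  classical
  set N := Nat.find hex with hN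
  have hN0 : U N = ∅ := Nat.find_spec hex
  have hmin : ∀ k < N, U k ≠ ∅ := fun k hk => Nat.find_min hex hk
  have hN2 : 2 ≤ N := by
    by_contra hlt
    obtain ⟨x⟩ := ‹Nonempty M›
    have hx : D x ∈ U N := by
      change (N : ℕ∞) ≤ (D ⁻¹' {D x}).encard
      have h4 : (1 : ℕ∞) ≤ (D ⁻¹' {D x}).encard := one_le_encard_iff_nonempty.2 ⟨x, rfl⟩
      refine le_trans ?_ h4
      exact_mod_cast (by omega : N ≤ 1)
    rw [hN0] at hx
    exact hx
  obtain ⟨d, hd⟩ : ∃ d, N = d + 1 := ⟨N - 1, by omega⟩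
  have hle : ∀ y, (D ⁻¹' {y}).encard ≤ d := by
    intro y
    by_contra hlt
    have : y ∈ U N := by
      change (N : ℕ∞) ≤ (D ⁻¹' {y}).encard
      rw [hd]
      push_cast
      exact Order.add_one_le_of_lt (not_le.1 hlt)
    rw [hN0] at this
    exact this
  have hfib : ∀ y, (D ⁻¹' {y}).Finite := fun y => finite_of_encard_le_coe (hle y)
  rcases key d with h | ⟨c, m, hm, h⟩
  · exact absurd h (hmin d (by omega))
  have hFfin : ((U d)ᶜ).Finite := (finite_torsion_translate c hm).subset h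
  have heq : ∀ y ∉ (U d)ᶜ, (D ⁻¹' {y}).encard = d := by
    intro y hy
    rw [notMem_compl_iff] at hy
    exact le_antisymm (hle y) hy
  refine ⟨d, m, c, (U d)ᶜ, by omega, hm, h, hFfin, ?_, hle, heq, ?_, ?_⟩
  · exact hFfin.preimage' fun y _ => hfib y
  · rw [compl_compl]
    refine covering_of_const hD (hUo d) (d := d) fun y hy => le_antisymm (hle y) hy
  · have hae : ∀ᵐ y : T, ((D ⁻¹' {y}).encard : ENNReal) = (d : ENNReal) := by
      have h6 : (volume : Measure T) (U d)ᶜ = 0 := volume_finite hFfin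
      rw [ae_iff]
      refine measure_mono_null (fun y hy => ?_) h6
      by_contra hy'
      apply hy
      rw [heq y hy', ENat.toENNReal_coe]
    rw [lintegral_congr_ae hae, lintegral_const, volume_univ_T, mul_one]

end Pool.Agent.H6.Veech
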